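import Mathlib

set_option autoImplicit false

namespace Pool.Agent.Work.MP_a39d1e_co

open Complex Finset

/-- the additive character x ↦ exp (2 π i x). -/
noncomputable def e (x : ℝ) : ℂ := Complex.exp ((2 * Real.pi * x : ℝ) * Complex.I)

lemma e_add (x y : ℝ) : e (x + y) = e x * e y := by
  unfold e
  rw [← Complex.exp_add]
  congr 1
  push_cast
  ring

lemma e_zero : e 0 = 1 := by simp [e]

lemma norm_e (x : ℝ) : ‖e x‖ = 1 := by
  unfold e
  exact Complex.norm_exp_ofReal_mul_I _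

lemma e_int (n : ℤ) : e n = 1 := by
  unfold e
  rw [Complex.exp_eq_one_iff]
  exact ⟨n, by push_cast; ring⟩

lemma e_add_int (x : ℝ) (n : ℤ) : e (x + n) = e x := by
  rw [e_add, e_int, mul_one]

lemma e_neg (x : ℝ) : e (-x) = (e x)⁻¹ := by
  unfold e
  rw [← Complex.exp_neg]
  congr 1
  push_cast
  ring

lemma e_ne_zero (x : ℝ) : e x ≠ 0 := by
  unfold e
  exact Complex.exp_ne_zero _

lemma conj_e (x : ℝ) : (starRingEnd ℂ) (e x) = e (-x) := by
  unfold e
  rw [← Complex.exp_conj]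
  congr 1
  rw [map_mul, Complex.conj_ofReal, Complex.conj_I]
  push_cast
  ring

lemma e_nat_mul (n : ℕ) (x : ℝ) : e (n * x) = e x ^ n := by
  unfold e
  rw [← Complex.exp_nat_mul]
  congr 1
  push_cast
  ring

lemma e_sum {ι : Type*} (s : Finset ι) (f : ι → ℝ) : e (∑ i ∈ s, f i) = ∏ i ∈ s, e (f i) := by
  classical
  induction s using Finset.induction_on with
  | empty => simp [e_zero]
  | insert a s ha ih => rw [Finset.sum_insert ha, Finset.prod_insert ha, e_add, ih]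

lemma norm_e_sub_one (x : ℝ) : ‖e x - 1‖ = 2 * |Real.sin (Real.pi * x)| := by
  have h := Complex.norm_exp_I_mul_ofReal_sub_one (2 * Real.pi * x)
  unfold e
  rw [mul_comm, h, Real.norm_eq_abs, abs_mul, abs_two]
  congr 3
  ring

lemma norm_e_sub_one_le (x : ℝ) : ‖e x - 1‖ ≤ 2 * Real.pi * |x| := by
  rw [norm_e_sub_one]
  have : |Real.sin (Real.pi * x)| ≤ |Real.pi * x| := Real.abs_sin_le_abs
  rw [abs_mul, abs_of_pos Real.pi_pos] at this
  linarith

/-- If `‖e x - 1‖` is small then `x` is close to an integer. -/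
lemma abs_sub_round_le (x : ℝ) : 4 * |x - round x| ≤ ‖e x - 1‖ := by
  have h1 : e x = e (x - round x) := by
    have := e_add_int (x - round x) (round x)
    rw [← this]
    congr 1
    ring
  rw [h1, norm_e_sub_one]
  have h2 : |x - round x| ≤ 1 / 2 := abs_sub_round x
  have h3 : |Real.pi * (x - round x)| ≤ Real.pi / 2 := by
    rw [abs_mul, abs_of_pos Real.pi_pos]
    have := Real.pi_pos
    nlinarith
  have h4 := Real.mul_abs_le_abs_sin h3
  rw [abs_mul, abs_of_pos Real.pi_pos] at h4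
  have h5 : 2 / Real.pi * (Real.pi * |x - round x|) = 2 * |x - round x| := by
    have := Real.pi_pos.ne'
    field_simp
  rw [h5] at h4
  linarith

lemma norm_e_nat_mul_sub_one_le (n : ℕ) (x : ℝ) : ‖e (n * x) - 1‖ ≤ n * ‖e x - 1‖ := by
  induction n with
  | zero => simp [e_zero]
  | succ n ih =>
    have : e ((n + 1 : ℕ) * x) - 1 = e x * (e (n * x) - 1) + (e x - 1) := by
      have : ((n + 1 : ℕ) : ℝ) * x = x + n * x := by push_cast; ring
      rw [this, e_add]
      ring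
    rw [this]
    calc ‖e x * (e (n * x) - 1) + (e x - 1)‖ ≤ ‖e x * (e (n * x) - 1)‖ + ‖e x - 1‖ := norm_add_le _ _
      _ = ‖e (n * x) - 1‖ + ‖e x - 1‖ := by rw [norm_mul, norm_e, one_mul]
      _ ≤ n * ‖e x - 1‖ + ‖e x - 1‖ := by linarith
      _ = ((n + 1 : ℕ) : ℝ) * ‖e x - 1‖ := by push_cast; ring

/-- geometric sums -/
lemma norm_geom_le (θ : ℝ) (n : ℕ) : ‖∑ w ∈ range n, e (θ * w)‖ * ‖e θ - 1‖ ≤ 2 := by
  have h : (∑ w ∈ range n, e (θ * w)) * (e θ - 1) = e (θ * n) - 1 := by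
    have h1 : ∀ w : ℕ, e (θ * w) = e θ ^ w := fun w => by rw [mul_comm, e_nat_mul]
    simp_rw [h1]
    exact geom_sum_mul _ _
  rw [← norm_mul, h]
  calc ‖e (θ * n) - 1‖ ≤ ‖e (θ * n)‖ + ‖(1 : ℂ)‖ := norm_sub_le _ _
    _ = 2 := by rw [norm_e, norm_one]; norm_num

end Pool.Agent.Work.MP_a39d1e_co
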