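import Mathlib

set_option autoImplicit false

namespace Pool.Agent.Work.MP_a39d1e_co

open Finset

lemma pair_of_card {β : Type*} [DecidableEq β] (H : Finset ℕ) (f : ℕ → β) (t : Finset β)
    (hmap : ∀ h ∈ H, f h ∈ t) (hcard : t.card < H.card) :
    ∃ h ∈ H, ∃ h' ∈ H, h < h' ∧ f h = f h' := by
  obtain ⟨x, hx, y, hy, hne, hxy⟩ := Finset.exists_ne_map_eq_of_card_lt_of_maps_to hcard hmap
  rcases lt_or_gt_of_ne hne with h | h
  · exact ⟨x, hx, y, hy, h, hxy⟩
  · exact ⟨y, hy, x, hx, h, hxy.symm⟩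

lemma sub_lt_of_div_eq {h h' s : ℕ} (hs : 0 < s) (heq : h / s = h' / s) : h' - h < s := by
  have h1 := Nat.div_add_mod h s
  have h2 := Nat.div_add_mod h' s
  have h3 := Nat.mod_lt h hs
  have h4 := Nat.mod_lt h' hs
  rw [heq] at h1
  omega

/-- Structure of many good approximations. -/
lemma lin (X D : ℕ) (hD : 1 ≤ D) (hX : 16 * D ^ 2 ≤ X) (θ : ℝ) (H : Finset ℕ)
    (hH : H ⊆ range X) (hcard : (X : ℝ) / D ≤ H.card)
    (hclose : ∀ h ∈ H, |θ * (h + 1) - round (θ * (h + 1))| ≤ D / (2 * X)) :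
    ∃ q : ℕ, 1 ≤ q ∧ q ≤ 2 * D ∧ ∃ a : ℤ, |θ - a / q| ≤ 16 * D ^ 3 / X ^ 2 := by
  have hDpos : (0 : ℝ) < D := by exact_mod_cast hD
  have hD1 : (1 : ℝ) ≤ D := by exact_mod_cast hD
  have hXr : (16 : ℝ) * D ^ 2 ≤ X := by exact_mod_cast hX
  have hXpos : (0 : ℝ) < X := by nlinarith
  have hXposN : 0 < X := by exact_mod_cast hXpos
  set r : ℕ → ℝ := fun h => θ * (h + 1) - round (θ * (h + 1)) with hr
  -- first pigeonhole
  obtain ⟨h1, hh1, h1', hh1', hlt1, heq1⟩ := pair_of_card H (fun h => h / (2 * D))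
    (range (X / (2 * D) + 1)) (by
      intro h hh
      have := Finset.mem_range.mp (hH hh)
      rw [Finset.mem_range]
      exact Nat.lt_succ_of_le (Nat.div_le_div_right this.le)) (by
      rw [Finset.card_range]
      have h1 : ((X / (2 * D) : ℕ) : ℝ) ≤ (X : ℝ) / ((2 * D : ℕ) : ℝ) := Nat.cast_div_le
      have h2 : (1 : ℝ) < (X : ℝ) / (2 * D) := by
        rw [lt_div_iff₀ (by positivity)]
        nlinarith
      have h3 : (X : ℝ) / D = X / (2 * D) + X / (2 * D) := by field_simp; ring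
      have h4 : ((X / (2 * D) + 1 : ℕ) : ℝ) < (H.card : ℝ) := by
        push_cast at h1 ⊢
        linarith
      exact_mod_cast h4)
  have hq1lt := sub_lt_of_div_eq (by positivity) heq1
  set q1 := h1' - h1 with hq1
  have hq1pos : 1 ≤ q1 := by omega
  have hq1cast : (q1 : ℝ) = (h1' : ℝ) - h1 := by rw [hq1, Nat.cast_sub hlt1.le]
  have hq1r : (1 : ℝ) ≤ q1 := by exact_mod_cast hq1pos
  set b1 : ℤ := round (θ * (h1' + 1)) - round (θ * (h1 + 1)) with hb1
  have hb1r : θ * q1 - b1 = r h1' - r h1 := by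
    rw [hq1cast, hb1, hr]; push_cast; ring
  have hb1abs : |θ * q1 - b1| ≤ D / X := by
    rw [hb1r]
    have a1 := hclose h1 hh1
    have a2 := hclose h1' hh1'
    have : (D : ℝ) / X = D / (2 * X) + D / (2 * X) := by field_simp; ring
    rw [this]
    calc |r h1' - r h1| ≤ |r h1'| + |r h1| := abs_sub _ _
      _ ≤ _ := add_le_add a2 a1
  -- second pigeonhole
  set B : ℕ := X / (2 * D) with hB
  set J : ℕ := X / (16 * D ^ 2) with hJ
  have hJ1 : 1 ≤ J := by
    rw [hJ]; exact (Nat.one_le_div_iff (by positivity)).mpr hX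
  have hJr1 : (1 : ℝ) ≤ J := by exact_mod_cast hJ1
  have hJle : (J : ℝ) * (16 * D ^ 2) ≤ X := by
    have : J * (16 * D ^ 2) ≤ X := Nat.div_mul_le_self _ _
    exact_mod_cast this
  have hJge : (X : ℝ) ≤ (32 * D ^ 2) * J := by
    have h1 : X < (16 * D ^ 2) * (J + 1) := Nat.lt_mul_div_succ X (by positivity)
    have h2 : (X : ℝ) < (16 * D ^ 2) * (J + 1) := by exact_mod_cast h1
    nlinarith
  have hBle : (B : ℝ) * (2 * D) ≤ X := by
    have : B * (2 * D) ≤ X := Nat.div_mul_le_self _ _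
    exact_mod_cast this
  have hBge : X ≤ B * (4 * D) := by
    have h1 : X < (2 * D) * (B + 1) := Nat.lt_mul_div_succ X (by positivity)
    have h2 : 1 ≤ B := by
      rw [hB]; exact (Nat.one_le_div_iff (by positivity)).mpr (by nlinarith)
    nlinarith
  have hBpos : 0 < B := by
    rcases Nat.eq_zero_or_pos B with h | h
    · rw [h] at hBge; omega
    · exact h
  have hXB : X / B ≤ 4 * D := by
    rw [mul_comm] at hBge
    exact Nat.div_le_of_le_mul (by rw [mul_comm]; exact hBge)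
  have hcpos : (0 : ℝ) < 2 * X * J / D := by positivity
  obtain ⟨h2, hh2, h2', hh2', hlt2, heq2⟩ := pair_of_card H
    (fun h => ((h / B, ⌊r h * (2 * X * J / D)⌋) : ℕ × ℤ))
    (range (X / B + 1) ×ˢ Finset.Icc (-(J : ℤ)) J) (by
      intro h hh
      have hm := Finset.mem_range.mp (hH hh)
      rw [Finset.mem_product, Finset.mem_range, Finset.mem_Icc]
      refine ⟨Nat.lt_succ_of_le (Nat.div_le_div_right hm.le), ?_, ?_⟩
      · have a := (abs_le.mp (hclose h hh)).1
        rw [Int.le_floor]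
        push_cast
        have : -((D : ℝ) / (2 * X)) * (2 * X * J / D) = -(J : ℝ) := by
          field_simp
        calc -(J : ℝ) = -((D : ℝ) / (2 * X)) * (2 * X * J / D) := this.symm
          _ ≤ r h * (2 * X * J / D) := mul_le_mul_of_nonneg_right a hcpos.le
      · have a := (abs_le.mp (hclose h hh)).2
        have h5 : r h * (2 * X * J / D) ≤ (J : ℝ) := by
          have : ((D : ℝ) / (2 * X)) * (2 * X * J / D) = (J : ℝ) := by
            field_simp
          calc r h * (2 * X * J / D) ≤ ((D : ℝ) / (2 * X)) * (2 * X * J / D) :=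
                mul_le_mul_of_nonneg_right a hcpos.le
            _ = J := this
        have h6 : ⌊r h * (2 * X * J / D)⌋ ≤ ⌊((J : ℤ) : ℝ)⌋ := Int.floor_le_floor (by exact_mod_cast h5)
        rwa [Int.floor_intCast] at h6) (by
      rw [Finset.card_product, Finset.card_range, Int.card_Icc]
      have h1 : ((J : ℤ) + 1 - -(J : ℤ)).toNat = 2 * J + 1 := by omega
      rw [h1]
      have h2 : (X / B + 1) * (2 * J + 1) ≤ (5 * D) * (3 * J) := by
        apply Nat.mul_le_mul <;> omega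
      have h3 : ((5 * D * (3 * J) : ℕ) : ℝ) < (H.card : ℝ) := by
        refine lt_of_lt_of_le ?_ hcard
        rw [lt_div_iff₀ hDpos]
        push_cast
        have : (0 : ℝ) < D ^ 2 * J := by positivity
        nlinarith
      have h4 : 5 * D * (3 * J) < H.card := by exact_mod_cast h3
      omega)
  rw [Prod.mk.injEq] at heq2
  have hq2lt := sub_lt_of_div_eq hBpos heq2.1
  set q2 := h2' - h2 with hq2
  have hq2pos : 1 ≤ q2 := by omega
  have hq2cast : (q2 : ℝ) = (h2' : ℝ) - h2 := by rw [hq2, Nat.cast_sub hlt2.le]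
  have hq2r : (1 : ℝ) ≤ q2 := by exact_mod_cast hq2pos
  set b2 : ℤ := round (θ * (h2' + 1)) - round (θ * (h2 + 1)) with hb2
  have hb2r : θ * q2 - b2 = r h2' - r h2 := by
    rw [hq2cast, hb2, hr]; push_cast; ring
  have hb2abs : |θ * q2 - b2| ≤ D / (2 * X * J) := by
    rw [hb2r]
    have h7 := Int.abs_sub_lt_one_of_floor_eq_floor heq2.2
    rw [← sub_mul, abs_mul, abs_of_pos hcpos, abs_sub_comm] at h7
    have : (D : ℝ) / (2 * X * J) = 1 / (2 * X * J / D) := by field_simp
    rw [this, le_div_iff₀ hcpos]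
    exact h7.le
  -- the two fractions agree
  have hcross : b1 * q2 = b2 * (q1 : ℤ) := by
    have h8 : |((b1 * q2 - b2 * (q1 : ℤ) : ℤ) : ℝ)| < 1 := by
      have e1 : ((b1 * q2 - b2 * (q1 : ℤ) : ℤ) : ℝ)
          = q1 * (θ * q2 - b2) - q2 * (θ * q1 - b1) := by push_cast; ring
      rw [e1]
      have e2 : |(q1 : ℝ) * (θ * q2 - b2) - q2 * (θ * q1 - b1)|
          ≤ |(q1 : ℝ) * (θ * q2 - b2)| + |(q2 : ℝ) * (θ * q1 - b1)| := abs_sub _ _
      have e3 : |(q1 : ℝ) * (θ * q2 - b2)| ≤ 1 / 4 := by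
        rw [abs_mul, abs_of_nonneg (by positivity)]
        have hq1le : (q1 : ℝ) ≤ 2 * D := by exact_mod_cast hq1lt.le
        calc (q1 : ℝ) * |θ * q2 - b2| ≤ (2 * D) * (D / (2 * X * J)) :=
              mul_le_mul hq1le hb2abs (abs_nonneg _) (by positivity)
          _ = D ^ 2 / (X * J) := by field_simp
          _ ≤ 1 / 4 := by
            rw [div_le_div_iff₀ (by positivity) (by norm_num)]
            have w1 : (X : ℝ) * 1 ≤ X * J := mul_le_mul_of_nonneg_left hJr1 hXpos.le
            have w2 : (0 : ℝ) ≤ D ^ 2 := by positivity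
            linarith
      have e4 : |(q2 : ℝ) * (θ * q1 - b1)| < 3 / 4 := by
        rw [abs_mul, abs_of_nonneg (by positivity)]
        have hq2le : (q2 : ℝ) ≤ B := by exact_mod_cast hq2lt.le
        calc (q2 : ℝ) * |θ * q1 - b1| ≤ B * (D / X) :=
              mul_le_mul hq2le hb1abs (abs_nonneg _) (by positivity)
          _ ≤ 1 / 2 := by
            rw [← mul_div_assoc, div_le_div_iff₀ hXpos (by norm_num)]
            have w1 : (B : ℝ) * D * 2 = B * (2 * D) := by ring
            linarith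
          _ < 3 / 4 := by norm_num
      linarith
    have h9 : b1 * q2 - b2 * (q1 : ℤ) = 0 := by
      rw [← Int.cast_abs] at h8
      have : |b1 * q2 - b2 * (q1 : ℤ)| < 1 := by exact_mod_cast h8
      exact Int.abs_lt_one_iff.mp this
    linarith
  refine ⟨q1, hq1pos, hq1lt.le, b1, ?_⟩
  have hfrac : (b1 : ℝ) / q1 = b2 / q2 := by
    rw [div_eq_div_iff (by positivity) (by positivity)]
    exact_mod_cast hcross
  rw [hfrac]
  have h10 : θ - b2 / q2 = (θ * q2 - b2) / q2 := by
    field_simp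
  rw [h10, abs_div, abs_of_pos (by positivity : (0 : ℝ) < q2)]
  calc |θ * q2 - b2| / q2 ≤ |θ * q2 - b2| := div_le_self (abs_nonneg _) hq2r
    _ ≤ D / (2 * X * J) := hb2abs
    _ ≤ 16 * D ^ 3 / X ^ 2 := by
      rw [div_le_div_iff₀ (by positivity) (by positivity)]
      have w1 : (0 : ℝ) < D * X := by positivity
      have w2 := mul_le_mul_of_nonneg_left hJge w1.le
      have w3 : (D : ℝ) * X ^ 2 = D * X * X := by ring
      have w4 : (16 : ℝ) * D ^ 3 * (2 * X * J) = D * X * (32 * D ^ 2 * J) := by ring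
      rw [w3, w4]
      exact w2

end Pool.Agent.Work.MP_a39d1e_co
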