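import Mathlib
import Pool.Agent.Work.MP_a39d1e_co.Basic
import Pool.Agent.Work.MP_a39d1e_co.Lin

set_option autoImplicit false

namespace Pool.Agent.Work.MP_a39d1e_co

open Complex Finset

/-- quadratic Weyl sum -/
noncomputable def S (X : ℕ) (α β : ℝ) : ℂ := ∑ w ∈ range X, e (α * (w : ℝ) ^ 2 + β * w)

lemma norm_S_le (X : ℕ) (α β : ℝ) : ‖S X α β‖ ≤ X := by
  unfold S
  calc ‖∑ w ∈ range X, e (α * (w : ℝ) ^ 2 + β * w)‖
      ≤ ∑ w ∈ range X, ‖e (α * (w : ℝ) ^ 2 + β * w)‖ := norm_sum_le _ _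
    _ = X := by simp [norm_e]

/-- differencing identity for unimodular sequences -/
lemma normSq_sum (t : ℕ → ℂ) (ht : ∀ w, ‖t w‖ = 1) (X : ℕ) :
    ‖∑ w ∈ range X, t w‖ ^ 2 = X + 2 *
      (∑ h ∈ range X, ∑ w ∈ range (X - 1 - h), t (w + h + 1) * (starRingEnd ℂ) (t w)).re := by
  induction X with
  | zero => simp
  | succ X ih =>
    rw [Finset.sum_range_succ, ← Complex.normSq_eq_norm_sq, Complex.normSq_add,
      Complex.normSq_eq_norm_sq, Complex.normSq_eq_norm_sq, ih, ht X]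
    have h1 : ∑ h ∈ range (X + 1), ∑ w ∈ range (X + 1 - 1 - h), t (w + h + 1) * (starRingEnd ℂ) (t w)
        = ∑ h ∈ range X, ∑ w ∈ range (X - 1 - h), t (w + h + 1) * (starRingEnd ℂ) (t w)
          + t X * (starRingEnd ℂ) (∑ w ∈ range X, t w) := by
      rw [Finset.sum_range_succ]
      have h2 : X + 1 - 1 - X = 0 := by omega
      rw [h2, Finset.sum_range_zero, add_zero]
      have h3 : (starRingEnd ℂ) (∑ w ∈ range X, t w) = ∑ h ∈ range X, (starRingEnd ℂ) (t (X - 1 - h)) := by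
        rw [map_sum]
        exact (Finset.sum_range_reflect (fun w => (starRingEnd ℂ) (t w)) X).symm
      rw [h3, Finset.mul_sum, ← Finset.sum_add_distrib]
      apply Finset.sum_congr rfl
      intro h hh
      have hh' := Finset.mem_range.mp hh
      have h4 : X + 1 - 1 - h = (X - 1 - h) + 1 := by omega
      rw [h4, Finset.sum_range_succ]
      have h5 : X - 1 - h + h + 1 = X := by omega
      rw [h5]
    rw [h1, Complex.add_re]
    have h6 : ((∑ w ∈ range X, t w) * (starRingEnd ℂ) (t X)).re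
        = (t X * (starRingEnd ℂ) (∑ w ∈ range X, t w)).re := by
      rw [← Complex.conj_re]
      congr 1
      rw [map_mul, Complex.conj_conj, mul_comm]
    rw [h6]
    push_cast
    ring

lemma weyl (X : ℕ) (α β : ℝ) :
    ‖S X α β‖ ^ 2 ≤ X + 2 * ∑ h ∈ range X, ‖∑ w ∈ range (X - 1 - h), e (2 * α * (h + 1) * w)‖ := by
  unfold S
  rw [normSq_sum (fun w : ℕ => e (α * (w : ℝ) ^ 2 + β * w)) (fun w => norm_e _) X]
  have key : ∀ h : ℕ, ∑ w ∈ range (X - 1 - h), e (α * ((w + h + 1 : ℕ) : ℝ) ^ 2 + β * ((w + h + 1 : ℕ) : ℝ))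
      * (starRingEnd ℂ) (e (α * (w : ℝ) ^ 2 + β * w))
      = e (α * (h + 1) ^ 2 + β * (h + 1)) * ∑ w ∈ range (X - 1 - h), e (2 * α * (h + 1) * w) := by
    intro h
    rw [Finset.mul_sum]
    apply Finset.sum_congr rfl
    intro w _
    rw [conj_e, ← e_add, ← e_add]
    congr 1
    push_cast
    ring
  have h1 : (∑ h ∈ range X, ∑ w ∈ range (X - 1 - h), e (α * ((w + h + 1 : ℕ) : ℝ) ^ 2 + β * ((w + h + 1 : ℕ) : ℝ))
      * (starRingEnd ℂ) (e (α * (w : ℝ) ^ 2 + β * w))).re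
      ≤ ∑ h ∈ range X, ‖∑ w ∈ range (X - 1 - h), e (2 * α * (h + 1) * w)‖ := by
    refine (Complex.re_le_norm _).trans ((norm_sum_le _ _).trans (le_of_eq ?_))
    apply Finset.sum_congr rfl
    intro h _
    rw [key h, norm_mul, norm_e, one_mul]
  linarith

/-- Inverse theorem for quadratic Weyl sums. -/
lemma inverse (X j : ℕ) (hj : 1 ≤ j) (hX : 1024 * j ^ 4 ≤ X) (α β : ℝ)
    (h : (X : ℝ) / j ≤ ‖S X α β‖) :
    ∃ q : ℕ, 1 ≤ q ∧ q ≤ 32 * j ^ 2 ∧ ∃ a : ℤ, |α - a / q| ≤ 4096 * j ^ 6 / X ^ 2 := by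
  have hjr : (1 : ℝ) ≤ j := by exact_mod_cast hj
  have hj4 : j ^ 2 ≤ j ^ 4 := Nat.pow_le_pow_right hj (by norm_num)
  have hj4pos : 1 ≤ j ^ 4 := Nat.one_le_pow _ _ hj
  have hXposN : 0 < X := by omega
  have hXpos : (0 : ℝ) < X := by exact_mod_cast hXposN
  have hX2 : (1024 : ℝ) * j ^ 2 ≤ X := by
    have : 1024 * j ^ 2 ≤ X := by omega
    exact_mod_cast this
  set g : ℕ → ℝ := fun h => ‖∑ w ∈ range (X - 1 - h), e (2 * α * (h + 1) * w)‖ with hg
  have hw := weyl X α β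
  have hgX : ∀ h, g h ≤ X := by
    intro h
    have : g h ≤ ((X - 1 - h : ℕ) : ℝ) := by
      calc g h ≤ ∑ w ∈ range (X - 1 - h), ‖e (2 * α * (h + 1) * w)‖ := norm_sum_le _ _
        _ = _ := by simp [norm_e]
    refine this.trans ?_
    exact_mod_cast (by omega : X - 1 - h ≤ X)
  have hsum : (X : ℝ) ^ 2 / (4 * j ^ 2) ≤ ∑ h ∈ range X, g h := by
    have h1 : ((X : ℝ) / j) ^ 2 ≤ ‖S X α β‖ ^ 2 := by
      apply pow_le_pow_left₀ (by positivity) h
    have h2 : (X : ℝ) ≤ X ^ 2 / (2 * j ^ 2) := by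
      rw [le_div_iff₀ (by positivity)]
      nlinarith
    have h3 : ((X : ℝ) / j) ^ 2 = X ^ 2 / (2 * j ^ 2) + 2 * (X ^ 2 / (4 * j ^ 2)) := by
      field_simp
      ring
    have h4 : ‖S X α β‖ ^ 2 ≤ X + 2 * ∑ h ∈ range X, g h := hw
    linarith
  set H := (range X).filter (fun h => (X : ℝ) / (8 * j ^ 2) ≤ g h) with hH
  have hcardH : (X : ℝ) / (8 * j ^ 2) ≤ H.card := by
    have h1 : ∑ h ∈ range X, g h ≤ H.card * X + X * (X / (8 * j ^ 2)) := by
      rw [← Finset.sum_filter_add_sum_filter_not (range X) (fun h => (X : ℝ) / (8 * j ^ 2) ≤ g h)]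
      apply add_le_add
      · calc ∑ h ∈ H, g h ≤ ∑ h ∈ H, (X : ℝ) := Finset.sum_le_sum (fun h _ => hgX h)
          _ = H.card * X := by simp
      · calc ∑ h ∈ (range X).filter (fun h => ¬ (X : ℝ) / (8 * j ^ 2) ≤ g h), g h
            ≤ ∑ h ∈ (range X).filter (fun h => ¬ (X : ℝ) / (8 * j ^ 2) ≤ g h), (X : ℝ) / (8 * j ^ 2) := by
              apply Finset.sum_le_sum
              intro h hh
              exact (not_le.mp (Finset.mem_filter.mp hh).2).le
          _ = ((range X).filter (fun h => ¬ (X : ℝ) / (8 * j ^ 2) ≤ g h)).card * ((X : ℝ) / (8 * j ^ 2)) := by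
              simp
          _ ≤ X * (X / (8 * j ^ 2)) := by
              apply mul_le_mul_of_nonneg_right _ (by positivity)
              have : ((range X).filter (fun h => ¬ (X : ℝ) / (8 * j ^ 2) ≤ g h)).card ≤ X := by
                calc _ ≤ (range X).card := Finset.card_filter_le _ _
                  _ = X := Finset.card_range X
              exact_mod_cast this
    have h2 : (X : ℝ) ^ 2 / (4 * j ^ 2) = X * (X / (8 * j ^ 2)) + X * (X / (8 * j ^ 2)) := by
      field_simp; ring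
    have h3 : (X / (8 * (j : ℝ) ^ 2)) * X ≤ H.card * X := by
      rw [mul_comm (X / (8 * (j : ℝ) ^ 2)) _]
      linarith
    exact le_of_mul_le_mul_right h3 hXpos
  obtain ⟨q, hq1, hq2, a, ha⟩ := lin X (8 * j ^ 2) (by nlinarith [Nat.one_le_pow 2 j hj])
    (by
      have : 16 * (8 * j ^ 2) ^ 2 = 1024 * j ^ 4 := by ring
      rw [this]; exact hX) (2 * α) H (Finset.filter_subset _ _)
    (by push_cast; exact hcardH)
    (by
      intro h hh
      have hgh : (X : ℝ) / (8 * j ^ 2) ≤ g h := (Finset.mem_filter.mp hh).2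
      have h1 := norm_geom_le (2 * α * (h + 1)) (X - 1 - h)
      have h2 := abs_sub_round_le (2 * α * (h + 1))
      have h3 : (0 : ℝ) < X / (8 * j ^ 2) := by positivity
      have h4 : X / (8 * (j : ℝ) ^ 2) * ‖e (2 * α * (h + 1)) - 1‖ ≤ 2 :=
        (mul_le_mul_of_nonneg_right hgh (norm_nonneg _)).trans h1
      have h5 : ‖e (2 * α * (h + 1)) - 1‖ ≤ 16 * j ^ 2 / X := by
        rw [le_div_iff₀ hXpos]
        rw [div_mul_eq_mul_div, div_le_iff₀ (by positivity)] at h4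
        linarith
      have h6 : ((8 * j ^ 2 : ℕ) : ℝ) / (2 * X) = (16 * j ^ 2 / X) / 4 := by
        push_cast
        field_simp
        ring
      rw [h6]
      linarith)
  refine ⟨2 * q, by omega, by omega, a, ?_⟩
  have hqr : (1 : ℝ) ≤ q := by exact_mod_cast hq1
  have h1 : α - a / ((2 * q : ℕ) : ℝ) = (2 * α - a / q) / 2 := by
    push_cast
    field_simp
  rw [h1, abs_div, abs_two]
  push_cast at ha
  have h2 : (16 : ℝ) * (8 * j ^ 2) ^ 3 / X ^ 2 = 2 * (4096 * j ^ 6 / X ^ 2) := by ring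
  rw [h2] at ha
  linarith

/-- Shift trick: near a rational with denominator `q` the Weyl sum is bounded unless `q β` is
nearly an integer. -/
lemma shift (X q : ℕ) (hX : 1 ≤ X) (hq : 1 ≤ q) (a : ℤ) (α β C : ℝ)
    (hα : |α - a / q| ≤ C / X ^ 2) :
    ‖e (q * β) - 1‖ * ‖S X α β‖ ≤ 2 * q + 2 * Real.pi * C * (2 * q + q ^ 2) := by
  have hXr : (1 : ℝ) ≤ X := by exact_mod_cast hX
  have hXpos : (0 : ℝ) < X := by linarith
  have hqr : (1 : ℝ) ≤ q := by exact_mod_cast hq
  have hqpos : (0 : ℝ) < q := by linarith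
  have hC : 0 ≤ C := by
    have h1 : 0 ≤ C / X ^ 2 := (abs_nonneg _).trans hα
    have h2 : (0 : ℝ) < X ^ 2 := by positivity
    by_contra hneg
    push Not at hneg
    have := div_neg_of_neg_of_pos hneg h2
    linarith
  set t : ℕ → ℂ := fun w => e (α * (w : ℝ) ^ 2 + β * w) with ht
  have hS : S X α β = ∑ w ∈ range X, t w := rfl
  set T : ℂ := ∑ w ∈ range X, t (q + w) with hT
  have hsplit : T - ∑ w ∈ range X, t w = ∑ w ∈ range q, t (X + w) - ∑ w ∈ range q, t w := by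
    have h1 := Finset.sum_range_add t q X
    have h2 := Finset.sum_range_add t X q
    rw [add_comm X q, h1] at h2
    linear_combination h2
  have hb1 : ‖T - S X α β‖ ≤ 2 * q := by
    rw [hS, hsplit]
    calc ‖∑ w ∈ range q, t (X + w) - ∑ w ∈ range q, t w‖
        ≤ ‖∑ w ∈ range q, t (X + w)‖ + ‖∑ w ∈ range q, t w‖ := norm_sub_le _ _
      _ ≤ ∑ w ∈ range q, ‖t (X + w)‖ + ∑ w ∈ range q, ‖t w‖ :=
          add_le_add (norm_sum_le _ _) (norm_sum_le _ _)
      _ = 2 * q := by simp [ht, norm_e]; ring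
  have hterm : ∀ w ∈ range X, ‖t (q + w) - e (q * β) * t w‖
      ≤ 2 * Real.pi * (C / X ^ 2 * (2 * X * q + q ^ 2)) := by
    intro w hw
    have hwX : (w : ℝ) ≤ X := by exact_mod_cast (Finset.mem_range.mp hw).le
    have h1 : t (q + w) = e ((α - a / q) * (2 * w * q + q ^ 2)) * (e (q * β) * t w) := by
      have h2 : α * ((q + w : ℕ) : ℝ) ^ 2 + β * ((q + w : ℕ) : ℝ)
          = ((α - a / q) * (2 * w * q + q ^ 2) + (q * β + (α * (w : ℝ) ^ 2 + β * w)))
            + ((a * (2 * w + q) : ℤ) : ℝ) := by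
        push_cast
        field_simp
        ring
      rw [ht]
      simp only
      rw [h2, e_add_int, e_add, e_add]
    rw [h1]
    have h3 : e ((α - a / q) * (2 * w * q + q ^ 2)) * (e (q * β) * t w) - e (q * β) * t w
        = (e ((α - a / q) * (2 * w * q + q ^ 2)) - 1) * (e (q * β) * t w) := by ring
    rw [h3, norm_mul, norm_mul, norm_e, ht]
    simp only [norm_e, mul_one]
    refine (norm_e_sub_one_le _).trans ?_
    apply mul_le_mul_of_nonneg_left _ (by positivity)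
    rw [abs_mul, abs_of_nonneg (by positivity : (0 : ℝ) ≤ 2 * w * q + q ^ 2)]
    apply mul_le_mul hα _ (by positivity) (by positivity)
    have : (w : ℝ) * q ≤ X * q := mul_le_mul_of_nonneg_right hwX hqpos.le
    linarith
  have hb2 : ‖T - e (q * β) * S X α β‖ ≤ 2 * Real.pi * C * (2 * q + q ^ 2) := by
    rw [hS, hT, Finset.mul_sum, ← Finset.sum_sub_distrib]
    refine (norm_sum_le _ _).trans ((Finset.sum_le_sum hterm).trans ?_)
    rw [Finset.sum_const, Finset.card_range, nsmul_eq_mul]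
    have h4 : (X : ℝ) * (2 * Real.pi * (C / X ^ 2 * (2 * X * q + q ^ 2)))
        = 2 * Real.pi * C * (2 * q + q ^ 2 / X) := by
      field_simp
    rw [h4]
    apply mul_le_mul_of_nonneg_left _ (by positivity)
    have : (q : ℝ) ^ 2 / X ≤ q ^ 2 := div_le_self (by positivity) hXr
    linarith
  have h5 : (e (q * β) - 1) * S X α β = (T - S X α β) - (T - e (q * β) * S X α β) := by ring
  rw [← norm_mul, h5]
  calc ‖(T - S X α β) - (T - e (q * β) * S X α β)‖
      ≤ ‖T - S X α β‖ + ‖T - e (q * β) * S X α β‖ := norm_sub_le _ _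
    _ ≤ _ := add_le_add hb1 hb2

end Pool.Agent.Work.MP_a39d1e_co
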