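import Mathlib
import Pool.Agent.Work.MP_a39d1e_co.Weyl

set_option autoImplicit false

namespace Pool.Agent.Work.MP_a39d1e_co

open Finset

open Classical in
/-- number of points `a / P` at which some Weyl sum is large -/
lemma count (X j : ℕ) (hj : 1 ≤ j) (hX : 1024 * j ^ 4 ≤ X) :
    ((range (12 * X ^ 2)).filter (fun a : ℕ => ∃ β : ℝ, (X : ℝ) / j ≤ ‖S X ((a : ℝ) / (12 * X ^ 2)) β‖)).card
      ≤ 500000000 * j ^ 10 := by
  have hjr : (1 : ℝ) ≤ j := by exact_mod_cast hj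
  have hj4pos : 1 ≤ j ^ 4 := Nat.one_le_pow _ _ hj
  have hXposN : 0 < X := by omega
  have hXpos : (0 : ℝ) < X := by exact_mod_cast hXposN
  have hXr : (1024 : ℝ) * j ^ 4 ≤ X := by exact_mod_cast hX
  set F := (range (12 * X ^ 2)).filter
    (fun a : ℕ => ∃ β : ℝ, (X : ℝ) / j ≤ ‖S X ((a : ℝ) / (12 * X ^ 2)) β‖) with hF
  set T : Finset (ℕ × ℤ × ℤ) := Finset.Icc 1 (32 * j ^ 2) ×ˢ
    (Finset.Icc (-(64 * j ^ 2 : ℤ)) (64 * j ^ 2) ×ˢ Finset.Icc (-(49152 * j ^ 6 : ℤ)) (49152 * j ^ 6)) with hT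
  have key : ∀ a ∈ F, ∃ p : ℕ × ℤ × ℤ, p ∈ T ∧
      ((p.2.2 : ℝ) ≤ a - (12 * X ^ 2) * p.2.1 / p.1 ∧ a - (12 * X ^ 2) * p.2.1 / p.1 < (p.2.2 : ℝ) + 1) := by
    intro a ha
    obtain ⟨haP, β, hβ⟩ := Finset.mem_filter.mp ha
    obtain ⟨q, hq1, hq2, b, hb⟩ := inverse X j hj hX _ β hβ
    have hqr : (1 : ℝ) ≤ q := by exact_mod_cast hq1
    have hq2r : (q : ℝ) ≤ 32 * j ^ 2 := by exact_mod_cast hq2
    have haP' : (a : ℝ) < 12 * X ^ 2 := by exact_mod_cast Finset.mem_range.mp haP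
    have hPpos : (0 : ℝ) < 12 * X ^ 2 := by positivity
    have ha0 : (0 : ℝ) ≤ a / (12 * X ^ 2) := by positivity
    have ha1 : (a : ℝ) / (12 * X ^ 2) < 1 := by rw [div_lt_one hPpos]; exact haP'
    have hsmall : (4096 : ℝ) * j ^ 6 / X ^ 2 ≤ 1 := by
      rw [div_le_one (by positivity)]
      have h1 : ((1024 : ℝ) * j ^ 4) ^ 2 ≤ X ^ 2 := pow_le_pow_left₀ (by positivity) hXr 2
      have h2 : (j : ℝ) ^ 6 ≤ j ^ 8 := pow_le_pow_right₀ hjr (by norm_num)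
      have h3 : ((1024 : ℝ) * j ^ 4) ^ 2 = 1048576 * j ^ 8 := by ring
      have h4 : (0 : ℝ) ≤ j ^ 8 := by positivity
      linarith
    have hbq := abs_le.mp (hb.trans hsmall)
    have hbq1 : (b : ℝ) / q ≤ 2 := by linarith
    have hbq2 : (-1 : ℝ) ≤ b / q := by linarith
    rw [div_le_iff₀ (by linarith)] at hbq1
    rw [le_div_iff₀ (by linarith)] at hbq2
    have hz : |(a : ℝ) - (12 * X ^ 2) * b / q| ≤ 49152 * (j : ℝ) ^ 6 := by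
      have h1 : (a : ℝ) - (12 * X ^ 2) * b / q = (12 * X ^ 2) * (a / (12 * X ^ 2) - b / q) := by
        field_simp
      rw [h1, abs_mul, abs_of_pos hPpos]
      calc (12 * (X : ℝ) ^ 2) * |(a : ℝ) / (12 * X ^ 2) - b / q|
          ≤ (12 * X ^ 2) * (4096 * j ^ 6 / X ^ 2) := mul_le_mul_of_nonneg_left hb hPpos.le
        _ = 49152 * j ^ 6 := by field_simp; ring
    obtain ⟨hz1, hz2⟩ := abs_le.mp hz
    refine ⟨(q, b, ⌊(a : ℝ) - (12 * X ^ 2) * b / q⌋), ?_, ?_⟩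
    · rw [hT, Finset.mem_product, Finset.mem_product, Finset.mem_Icc, Finset.mem_Icc, Finset.mem_Icc]
      refine ⟨⟨hq1, hq2⟩, ⟨?_, ?_⟩, ⟨?_, ?_⟩⟩
      · have : (-(64 * j ^ 2 : ℤ) : ℝ) ≤ (b : ℝ) := by push_cast; nlinarith
        exact_mod_cast this
      · have : (b : ℝ) ≤ ((64 * j ^ 2 : ℤ) : ℝ) := by push_cast; nlinarith
        exact_mod_cast this
      · rw [Int.le_floor]; push_cast; linarith
      · have h5 : ((⌊(a : ℝ) - (12 * X ^ 2) * b / q⌋ : ℤ) : ℝ) ≤ 49152 * (j : ℝ) ^ 6 := (Int.floor_le _).trans hz2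
        exact_mod_cast h5
    · exact ⟨Int.floor_le _, Int.lt_floor_add_one _⟩
  choose! f hf using key
  have hcard : F.card ≤ T.card := by
    apply Finset.card_le_card_of_injOn f (fun a ha => (hf a ha).1)
    intro a ha a' ha' heq
    have h1 := (hf a ha).2
    have h2 := (hf a' ha').2
    rw [heq] at h1
    have h3 : (a : ℝ) < a' + 1 := by linarith [h1.2, h2.1]
    have h4 : (a' : ℝ) < a + 1 := by linarith [h1.1, h2.2]
    have h5 : a < a' + 1 := by exact_mod_cast h3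
    have h6 : a' < a + 1 := by exact_mod_cast h4
    omega
  refine hcard.trans ?_
  rw [hT, Finset.card_product, Finset.card_product, Nat.card_Icc, Int.card_Icc, Int.card_Icc]
  have h1 : ((64 * j ^ 2 : ℤ) + 1 - -(64 * j ^ 2 : ℤ)).toNat = 128 * j ^ 2 + 1 := by
    have : (64 * j ^ 2 : ℤ) + 1 - -(64 * j ^ 2 : ℤ) = ((128 * j ^ 2 + 1 : ℕ) : ℤ) := by push_cast; ring
    rw [this, Int.toNat_natCast]
  have h2 : ((49152 * j ^ 6 : ℤ) + 1 - -(49152 * j ^ 6 : ℤ)).toNat = 98304 * j ^ 6 + 1 := by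
    have : (49152 * j ^ 6 : ℤ) + 1 - -(49152 * j ^ 6 : ℤ) = ((98304 * j ^ 6 + 1 : ℕ) : ℤ) := by
      push_cast; ring
    rw [this, Int.toNat_natCast]
  rw [h1, h2]
  have h3 : 1 ≤ j ^ 2 := Nat.one_le_pow _ _ hj
  have h4 : 1 ≤ j ^ 6 := Nat.one_le_pow _ _ hj
  calc (32 * j ^ 2 + 1 - 1) * ((128 * j ^ 2 + 1) * (98304 * j ^ 6 + 1))
      ≤ (32 * j ^ 2) * ((129 * j ^ 2) * (98305 * j ^ 6)) := by
        apply Nat.mul_le_mul (by omega)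
        apply Nat.mul_le_mul <;> omega
    _ = 405803040 * j ^ 10 := by ring
    _ ≤ 500000000 * j ^ 10 := by
        apply Nat.mul_le_mul_right
        norm_num

open Classical in
lemma pointwise (X j₀ J : ℕ) (hj₀ : 1 ≤ j₀) (hJ : j₀ ≤ J) (y : Fin 12 → ℝ) (hy0 : ∀ i, 0 ≤ y i)
    (hy : ¬ ∃ i, (X : ℝ) / j₀ ≤ y i) :
    ∏ i, y i ≤ ∑ j ∈ Finset.Ioc j₀ J, (if ∃ i, (X : ℝ) / j ≤ y i then (2 * (X : ℝ) / j) ^ 12 else 0)
      + ((X : ℝ) / J) ^ 12 := by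
  have hnn : ∀ j ∈ Finset.Ioc j₀ J,
      (0 : ℝ) ≤ (if ∃ i, (X : ℝ) / j ≤ y i then (2 * (X : ℝ) / j) ^ 12 else 0) := by
    intro j _
    split_ifs
    · positivity
    · exact le_refl _
  have hJ0 : (0 : ℝ) ≤ ((X : ℝ) / J) ^ 12 := by positivity
  by_cases hp : ∃ i, (X : ℝ) / J ≤ y i
  · have hlt : j₀ < J := by
      rcases hJ.lt_or_eq with h | h
      · exact h
      · exact absurd (h ▸ hp) hy
    have hex : ∃ j, j₀ < j ∧ ∃ i, (X : ℝ) / j ≤ y i := ⟨J, hlt, hp⟩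
    set j := Nat.find hex with hj
    obtain ⟨hj1, hj2⟩ := Nat.find_spec hex
    have hjJ : j ≤ J := Nat.find_min' hex ⟨hlt, hp⟩
    have hnot : ¬ ∃ i, (X : ℝ) / ((j - 1 : ℕ) : ℝ) ≤ y i := by
      intro hcon
      rcases Nat.lt_or_ge j₀ (j - 1) with h | h
      · exact Nat.find_min hex (m := j - 1) (by omega) ⟨h, hcon⟩
      · have : j - 1 = j₀ := by omega
        rw [this] at hcon
        exact hy hcon
    have hb : ∀ i, y i ≤ 2 * (X : ℝ) / j := by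
      intro i
      have h1 : y i < (X : ℝ) / ((j - 1 : ℕ) : ℝ) := by
        by_contra h
        exact hnot ⟨i, not_lt.mp h⟩
      refine h1.le.trans ?_
      have h2 : ((j - 1 : ℕ) : ℝ) = (j : ℝ) - 1 := by rw [Nat.cast_sub (by omega)]; simp
      have h3 : (2 : ℝ) ≤ j := by exact_mod_cast (by omega : 2 ≤ j)
      rw [h2, div_le_div_iff₀ (by linarith) (by linarith)]
      have : (0 : ℝ) ≤ X := by positivity
      nlinarith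
    have hprod : ∏ i, y i ≤ (2 * (X : ℝ) / j) ^ 12 := by
      calc ∏ i, y i ≤ ∏ _i : Fin 12, (2 * (X : ℝ) / j) :=
            Finset.prod_le_prod (fun i _ => hy0 i) (fun i _ => hb i)
        _ = _ := by rw [Finset.prod_const, Finset.card_univ, Fintype.card_fin]
    have hmem : j ∈ Finset.Ioc j₀ J := Finset.mem_Ioc.mpr ⟨hj1, hjJ⟩
    have h4 := Finset.single_le_sum hnn hmem
    rw [if_pos hj2] at h4
    linarith
  · have hb : ∀ i, y i ≤ (X : ℝ) / J := by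
      intro i
      by_contra h
      exact hp ⟨i, (not_le.mp h).le⟩
    have hprod : ∏ i, y i ≤ ((X : ℝ) / J) ^ 12 := by
      calc ∏ i, y i ≤ ∏ _i : Fin 12, ((X : ℝ) / J) :=
            Finset.prod_le_prod (fun i _ => hy0 i) (fun i _ => hb i)
        _ = _ := by rw [Finset.prod_const, Finset.card_univ, Fintype.card_fin]
    have h4 := Finset.sum_nonneg hnn
    linarith

open Classical in
/-- one large coordinate forces a small factor -/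
lemma major (X j₀ : ℕ) (hj₀ : 1 ≤ j₀) (hX : 1024 * j₀ ^ 4 ≤ X) (ε₁ : ℝ) (hε₁ : 0 < ε₁)
    (α : ℝ) (ξ : Fin 12 → ℝ) (hα : ∃ i, (X : ℝ) / j₀ ≤ ‖S X α (ξ i)‖)
    (i₀ : Fin 12) (hi₀ : ε₁ ≤ ‖e (((32 * j₀ ^ 2).factorial : ℕ) * ξ i₀) - 1‖) :
    ∏ i, ‖S X α (ξ i)‖ ≤ ((64 * j₀ ^ 2 + 2 * Real.pi * (4096 * j₀ ^ 6) * (64 * j₀ ^ 2 + (32 * j₀ ^ 2) ^ 2))
      * ((32 * j₀ ^ 2).factorial : ℕ) / ε₁) * (X : ℝ) ^ 11 := by
  have hj4pos : 1 ≤ j₀ ^ 4 := Nat.one_le_pow _ _ hj₀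
  have hX1 : 1 ≤ X := by omega
  obtain ⟨i₁, hi₁⟩ := hα
  obtain ⟨q, hq1, hq2, a, ha⟩ := inverse X j₀ hj₀ hX α (ξ i₁) hi₁
  have hq2r : (q : ℝ) ≤ 32 * j₀ ^ 2 := by exact_mod_cast hq2
  have hqr : (1 : ℝ) ≤ q := by exact_mod_cast hq1
  have hs := shift X q hX1 hq1 a α (ξ i₀) (4096 * j₀ ^ 6) ha
  set L : ℕ := (32 * j₀ ^ 2).factorial with hL
  have hLpos : 0 < L := Nat.factorial_pos _
  have hLr : (0 : ℝ) < L := by exact_mod_cast hLpos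
  obtain ⟨m, hm⟩ : q ∣ L := Nat.dvd_factorial hq1 hq2
  have hmL : m ≤ L := by
    rw [hm]; exact Nat.le_mul_of_pos_left m hq1
  have hmr : (m : ℝ) ≤ L := by exact_mod_cast hmL
  have h1 : ε₁ ≤ L * ‖e (q * ξ i₀) - 1‖ := by
    have h2 : (L : ℝ) * ξ i₀ = m * (q * ξ i₀) := by rw [hm]; push_cast; ring
    rw [h2] at hi₀
    calc ε₁ ≤ ‖e (m * (q * ξ i₀)) - 1‖ := hi₀
      _ ≤ m * ‖e (q * ξ i₀) - 1‖ := norm_e_nat_mul_sub_one_le _ _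
      _ ≤ L * ‖e (q * ξ i₀) - 1‖ := mul_le_mul_of_nonneg_right hmr (norm_nonneg _)
  set B : ℝ := 64 * j₀ ^ 2 + 2 * Real.pi * (4096 * j₀ ^ 6) * (64 * j₀ ^ 2 + (32 * j₀ ^ 2) ^ 2) with hB
  have hpi := Real.pi_pos
  have hBle : 2 * q + 2 * Real.pi * (4096 * j₀ ^ 6) * (2 * q + q ^ 2) ≤ B := by
    rw [hB]
    have h3 : (q : ℝ) ^ 2 ≤ (32 * j₀ ^ 2) ^ 2 := pow_le_pow_left₀ (by linarith) hq2r 2
    have h4 : 2 * Real.pi * (4096 * (j₀ : ℝ) ^ 6) * (2 * q + q ^ 2)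
        ≤ 2 * Real.pi * (4096 * j₀ ^ 6) * (64 * j₀ ^ 2 + (32 * j₀ ^ 2) ^ 2) := by
      apply mul_le_mul_of_nonneg_left _ (by positivity)
      linarith
    linarith
  have hSi : ‖S X α (ξ i₀)‖ ≤ B * L / ε₁ := by
    rw [le_div_iff₀ hε₁]
    calc ‖S X α (ξ i₀)‖ * ε₁ ≤ ‖S X α (ξ i₀)‖ * (L * ‖e (q * ξ i₀) - 1‖) :=
          mul_le_mul_of_nonneg_left h1 (norm_nonneg _)
      _ = (‖e (q * ξ i₀) - 1‖ * ‖S X α (ξ i₀)‖) * L := by ring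
      _ ≤ B * L := mul_le_mul_of_nonneg_right (hs.trans hBle) hLr.le
  rw [← Finset.mul_prod_erase Finset.univ _ (Finset.mem_univ i₀)]
  apply mul_le_mul hSi _ (Finset.prod_nonneg (fun i _ => norm_nonneg _)) ((norm_nonneg _).trans hSi)
  calc ∏ i ∈ Finset.univ.erase i₀, ‖S X α (ξ i)‖ ≤ ∏ _i ∈ Finset.univ.erase i₀, (X : ℝ) :=
        Finset.prod_le_prod (fun i _ => norm_nonneg _) (fun i _ => norm_S_le _ _ _)
    _ = (X : ℝ) ^ 11 := by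
        rw [Finset.prod_const, Finset.card_erase_of_mem (Finset.mem_univ _), Finset.card_univ,
          Fintype.card_fin]

open Classical in
/-- The circle method estimate. -/
lemma circle (ε : ℝ) (hε : 0 < ε) : ∃ L : ℕ, 1 ≤ L ∧ ∀ ε₁ : ℝ, 0 < ε₁ → ∃ J₀ : ℕ, ∀ J : ℕ, J₀ ≤ J →
    ∀ ξ : Fin 12 → ℝ, (∃ i, ε₁ ≤ ‖e (L * ξ i) - 1‖) →
    ∑ a ∈ range (12 * (1024 * J ^ 4) ^ 2),
      ∏ i, ‖S (1024 * J ^ 4) ((a : ℝ) / (12 * ((1024 * J ^ 4 : ℕ) : ℝ) ^ 2)) (ξ i)‖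
      ≤ ε * ((1024 * J ^ 4 : ℕ) : ℝ) ^ 12 := by
  obtain ⟨j₀, hj₀⟩ := exists_nat_ge (4 * (2 ^ 12 * 500000000) / ε + 1)
  have hj₀r : (1 : ℝ) ≤ j₀ := by
    have : 0 ≤ 4 * (2 ^ 12 * 500000000) / ε := by positivity
    linarith
  have hj₀1 : 1 ≤ j₀ := by exact_mod_cast hj₀r
  have hj₀e : (2 ^ 12 * 500000000 : ℝ) / j₀ ≤ ε / 4 := by
    rw [div_le_div_iff₀ (by linarith) (by norm_num)]
    have : 4 * (2 ^ 12 * 500000000) / ε ≤ j₀ := by linarith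
    rw [div_le_iff₀ hε] at this
    linarith
  refine ⟨(32 * j₀ ^ 2).factorial, Nat.factorial_pos _, ?_⟩
  intro ε₁ hε₁
  set B : ℝ := (64 * j₀ ^ 2 + 2 * Real.pi * (4096 * j₀ ^ 6) * (64 * j₀ ^ 2 + (32 * j₀ ^ 2) ^ 2))
      * ((32 * j₀ ^ 2).factorial : ℕ) / ε₁ with hB
  have hpi := Real.pi_pos
  have hB0 : 0 ≤ B := by rw [hB]; positivity
  obtain ⟨J₁, hJ₁⟩ := exists_nat_ge (4 * (500000000 * j₀ ^ 10 * B) / ε)
  obtain ⟨J₂, hJ₂⟩ := exists_nat_ge (48 * 1024 ^ 3 / ε)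
  refine ⟨max j₀ (max J₁ J₂), ?_⟩
  intro J hJ ξ hξ
  obtain ⟨i₀, hi₀⟩ := hξ
  have hJj₀ : j₀ ≤ J := le_trans (le_max_left _ _) hJ
  have hJJ₁ : J₁ ≤ J := le_trans (le_trans (le_max_left _ _) (le_max_right _ _)) hJ
  have hJJ₂ : J₂ ≤ J := le_trans (le_trans (le_max_right _ _) (le_max_right _ _)) hJ
  have hJ1 : 1 ≤ J := le_trans hj₀1 hJj₀
  have hJr : (1 : ℝ) ≤ J := by exact_mod_cast hJ1
  set X : ℕ := 1024 * J ^ 4 with hX
  have hJX : J ≤ X := by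
    have : J ≤ J ^ 4 := Nat.le_self_pow (by norm_num) J
    omega
  have hJXr : (J : ℝ) ≤ X := by exact_mod_cast hJX
  have hXr1 : (1 : ℝ) ≤ X := hJr.trans hJXr
  have hXpos : (0 : ℝ) < X := by linarith
  have hX₁ : 4 * (500000000 * j₀ ^ 10 * B) / ε ≤ X :=
    hJ₁.trans ((by exact_mod_cast hJJ₁ : (J₁ : ℝ) ≤ J).trans hJXr)
  have hX₂ : 48 * 1024 ^ 3 / ε ≤ X :=
    hJ₂.trans ((by exact_mod_cast hJJ₂ : (J₂ : ℝ) ≤ J).trans hJXr)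
  have hle4 : ∀ j : ℕ, j ≤ J → 1024 * j ^ 4 ≤ X := by
    intro j hj
    exact Nat.mul_le_mul_left _ (Nat.pow_le_pow_left hj 4)
  set f : ℕ → ℝ := fun a => ∏ i, ‖S X ((a : ℝ) / (12 * (X : ℝ) ^ 2)) (ξ i)‖ with hf
  set E := (range (12 * X ^ 2)).filter
    (fun a : ℕ => ∃ i, (X : ℝ) / j₀ ≤ ‖S X ((a : ℝ) / (12 * (X : ℝ) ^ 2)) (ξ i)‖) with hE
  have hcount : ∀ j : ℕ, 1 ≤ j → j ≤ J → (((range (12 * X ^ 2)).filter
      (fun a : ℕ => ∃ i, (X : ℝ) / j ≤ ‖S X ((a : ℝ) / (12 * (X : ℝ) ^ 2)) (ξ i)‖)).card : ℝ)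
      ≤ 500000000 * (j : ℝ) ^ 10 := by
    intro j hj1 hjJ
    have h1 := count X j hj1 (hle4 j hjJ)
    have h2 : ((range (12 * X ^ 2)).filter
      (fun a : ℕ => ∃ i, (X : ℝ) / j ≤ ‖S X ((a : ℝ) / (12 * (X : ℝ) ^ 2)) (ξ i)‖)).card
      ≤ ((range (12 * X ^ 2)).filter (fun a : ℕ => ∃ β : ℝ, (X : ℝ) / j ≤ ‖S X ((a : ℝ) / (12 * X ^ 2)) β‖)).card := by
      apply Finset.card_le_card
      intro a ha
      rw [Finset.mem_filter] at ha ⊢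
      exact ⟨ha.1, ha.2.elim (fun i hi => ⟨ξ i, hi⟩)⟩
    exact_mod_cast h2.trans h1
  -- major part
  have hmaj : ∑ a ∈ E, f a ≤ ε / 4 * X ^ 12 := by
    have h1 : ∀ a ∈ E, f a ≤ B * (X : ℝ) ^ 11 := by
      intro a ha
      exact major X j₀ hj₀1 (hle4 j₀ hJj₀) ε₁ hε₁ _ ξ (Finset.mem_filter.mp ha).2 i₀ hi₀
    calc ∑ a ∈ E, f a ≤ ∑ a ∈ E, B * (X : ℝ) ^ 11 := Finset.sum_le_sum h1
      _ = E.card * (B * (X : ℝ) ^ 11) := by rw [Finset.sum_const, nsmul_eq_mul]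
      _ ≤ (500000000 * (j₀ : ℝ) ^ 10) * (B * (X : ℝ) ^ 11) :=
          mul_le_mul_of_nonneg_right (hcount j₀ hj₀1 hJj₀) (by positivity)
      _ = (500000000 * (j₀ : ℝ) ^ 10 * B) * (X : ℝ) ^ 11 := by ring
      _ ≤ (ε / 4 * X) * (X : ℝ) ^ 11 := by
          apply mul_le_mul_of_nonneg_right _ (by positivity)
          rw [div_le_iff₀ hε] at hX₁
          linarith
      _ = ε / 4 * X ^ 12 := by ring
  -- minor part
  have hmin : ∑ a ∈ (range (12 * X ^ 2)).filter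
      (fun a : ℕ => ¬ ∃ i, (X : ℝ) / j₀ ≤ ‖S X ((a : ℝ) / (12 * (X : ℝ) ^ 2)) (ξ i)‖), f a
      ≤ ε / 2 * X ^ 12 := by
    have h1 : ∀ a ∈ (range (12 * X ^ 2)).filter
      (fun a : ℕ => ¬ ∃ i, (X : ℝ) / j₀ ≤ ‖S X ((a : ℝ) / (12 * (X : ℝ) ^ 2)) (ξ i)‖),
      f a ≤ ∑ j ∈ Finset.Ioc j₀ J, (if ∃ i, (X : ℝ) / j ≤ ‖S X ((a : ℝ) / (12 * (X : ℝ) ^ 2)) (ξ i)‖
        then (2 * (X : ℝ) / j) ^ 12 else 0) + ((X : ℝ) / J) ^ 12 := by
      intro a ha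
      exact pointwise X j₀ J hj₀1 hJj₀ _ (fun i => norm_nonneg _) (Finset.mem_filter.mp ha).2
    have h2 : ∑ j ∈ Finset.Ioc j₀ J, ∑ a ∈ range (12 * X ^ 2),
        (if ∃ i, (X : ℝ) / j ≤ ‖S X ((a : ℝ) / (12 * (X : ℝ) ^ 2)) (ξ i)‖
        then (2 * (X : ℝ) / j) ^ 12 else 0) ≤ ε / 4 * X ^ 12 := by
      have h3 : ∀ j ∈ Finset.Ioc j₀ J, ∑ a ∈ range (12 * X ^ 2),
        (if ∃ i, (X : ℝ) / j ≤ ‖S X ((a : ℝ) / (12 * (X : ℝ) ^ 2)) (ξ i)‖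
        then (2 * (X : ℝ) / j) ^ 12 else 0)
          ≤ (2 ^ 12 * 500000000 * (X : ℝ) ^ 12) * (((j : ℝ) ^ 2)⁻¹) := by
        intro j hj
        obtain ⟨hj1, hj2⟩ := Finset.mem_Ioc.mp hj
        have hjpos : (0 : ℝ) < j := by exact_mod_cast (by omega : 0 < j)
        rw [← Finset.sum_filter, Finset.sum_const, nsmul_eq_mul]
        calc _ ≤ (500000000 * (j : ℝ) ^ 10) * (2 * (X : ℝ) / j) ^ 12 :=
              mul_le_mul_of_nonneg_right (hcount j (by omega) hj2) (by positivity)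
          _ = _ := by field_simp
      calc _ ≤ ∑ j ∈ Finset.Ioc j₀ J, (2 ^ 12 * 500000000 * (X : ℝ) ^ 12) * (((j : ℝ) ^ 2)⁻¹) :=
            Finset.sum_le_sum h3
        _ = (2 ^ 12 * 500000000 * (X : ℝ) ^ 12) * ∑ j ∈ Finset.Ioc j₀ J, (((j : ℝ) ^ 2)⁻¹) := by
            rw [Finset.mul_sum]
        _ ≤ (2 ^ 12 * 500000000 * (X : ℝ) ^ 12) * ((j₀ : ℝ)⁻¹ - (J : ℝ)⁻¹) := by
            apply mul_le_mul_of_nonneg_left _ (by positivity)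
            exact sum_Ioc_inv_sq_le_sub (by omega) hJj₀
        _ ≤ (2 ^ 12 * 500000000 * (X : ℝ) ^ 12) * (j₀ : ℝ)⁻¹ := by
            apply mul_le_mul_of_nonneg_left _ (by positivity)
            have : (0 : ℝ) ≤ (J : ℝ)⁻¹ := by positivity
            linarith
        _ = (2 ^ 12 * 500000000 : ℝ) / j₀ * X ^ 12 := by ring
        _ ≤ ε / 4 * X ^ 12 := mul_le_mul_of_nonneg_right hj₀e (by positivity)
    have h4 : (12 * (X : ℝ) ^ 2) * ((X : ℝ) / J) ^ 12 ≤ ε / 4 * X ^ 12 := by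
      have hJX4 : (X : ℝ) = 1024 * (J : ℝ) ^ 4 := by rw [hX]; push_cast; ring
      have h5 : (12 * (X : ℝ) ^ 2) * ((X : ℝ) / J) ^ 12 = (12 * 1024 ^ 3) * X ^ 11 := by
        have h6 : (X : ℝ) ^ 3 = 1024 ^ 3 * (J : ℝ) ^ 12 := by rw [hJX4]; ring
        have h7 : ((J : ℝ) ^ 12) ≠ 0 := by positivity
        rw [div_pow, mul_div_assoc', div_eq_iff h7]
        calc 12 * (X : ℝ) ^ 2 * X ^ 12 = 12 * X ^ 11 * X ^ 3 := by ring
          _ = _ := by rw [h6]; ring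
      rw [h5]
      calc (12 * 1024 ^ 3 : ℝ) * (X : ℝ) ^ 11 ≤ (ε / 4 * X) * (X : ℝ) ^ 11 := by
            apply mul_le_mul_of_nonneg_right _ (by positivity)
            rw [div_le_iff₀ hε] at hX₂
            linarith
        _ = ε / 4 * X ^ 12 := by ring
    calc _ ≤ ∑ a ∈ (range (12 * X ^ 2)).filter
          (fun a : ℕ => ¬ ∃ i, (X : ℝ) / j₀ ≤ ‖S X ((a : ℝ) / (12 * (X : ℝ) ^ 2)) (ξ i)‖),
          (∑ j ∈ Finset.Ioc j₀ J, (if ∃ i, (X : ℝ) / j ≤ ‖S X ((a : ℝ) / (12 * (X : ℝ) ^ 2)) (ξ i)‖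
        then (2 * (X : ℝ) / j) ^ 12 else 0) + ((X : ℝ) / J) ^ 12) := Finset.sum_le_sum h1
      _ ≤ ∑ a ∈ range (12 * X ^ 2),
          (∑ j ∈ Finset.Ioc j₀ J, (if ∃ i, (X : ℝ) / j ≤ ‖S X ((a : ℝ) / (12 * (X : ℝ) ^ 2)) (ξ i)‖
        then (2 * (X : ℝ) / j) ^ 12 else 0) + ((X : ℝ) / J) ^ 12) := by
          apply Finset.sum_le_sum_of_subset_of_nonneg (Finset.filter_subset _ _)
          intro a _ _
          apply add_nonneg _ (by positivity)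
          apply Finset.sum_nonneg
          intro j _
          split_ifs
          · positivity
          · exact le_refl _
      _ = ∑ j ∈ Finset.Ioc j₀ J, ∑ a ∈ range (12 * X ^ 2),
        (if ∃ i, (X : ℝ) / j ≤ ‖S X ((a : ℝ) / (12 * (X : ℝ) ^ 2)) (ξ i)‖
        then (2 * (X : ℝ) / j) ^ 12 else 0) + (12 * (X : ℝ) ^ 2) * ((X : ℝ) / J) ^ 12 := by
          rw [Finset.sum_add_distrib, Finset.sum_comm, Finset.sum_const, Finset.card_range,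
            nsmul_eq_mul]
          push_cast
          ring
      _ ≤ ε / 4 * X ^ 12 + ε / 4 * X ^ 12 := add_le_add h2 h4
      _ = ε / 2 * X ^ 12 := by ring
  rw [← Finset.sum_filter_add_sum_filter_not (range (12 * X ^ 2))
    (fun a : ℕ => ∃ i, (X : ℝ) / j₀ ≤ ‖S X ((a : ℝ) / (12 * (X : ℝ) ^ 2)) (ξ i)‖)]
  calc _ ≤ ε / 4 * X ^ 12 + ε / 2 * X ^ 12 := add_le_add hmaj hmin
    _ ≤ ε * X ^ 12 := by
      have : (0 : ℝ) ≤ (X : ℝ) ^ 12 := by positivity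
      nlinarith

end Pool.Agent.Work.MP_a39d1e_co
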