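import Mathlib
import Pool.Agent.Work.MP_a39d1e_co.Circle

set_option autoImplicit false

namespace Pool.Agent.Work.MP_a39d1e_co

open Finset

/-- orthogonality on `ℤ / P` -/
lemma orth1 (P : ℕ) (hP : 1 ≤ P) (k : ℤ) (hk : |k| < P) :
    ∑ a ∈ range P, e ((a : ℝ) / P * k) = if k = 0 then (P : ℂ) else 0 := by
  have hPr : (0 : ℝ) < P := by exact_mod_cast hP
  by_cases h0 : k = 0
  · subst h0
    simp [e_zero]
  · rw [if_neg h0]
    have h1 : ∀ a : ℕ, e ((a : ℝ) / P * k) = e ((k : ℝ) / P) ^ a := by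
      intro a
      rw [← e_nat_mul]
      congr 1
      ring
    simp_rw [h1]
    have h2 : (∑ a ∈ range P, e ((k : ℝ) / P) ^ a) * (e ((k : ℝ) / P) - 1) = 0 := by
      rw [geom_sum_mul, ← e_nat_mul]
      have : (P : ℝ) * ((k : ℝ) / P) = k := by field_simp
      rw [this, e_int, sub_self]
    rcases mul_eq_zero.mp h2 with h | h
    · exact h
    · exfalso
      have h3 := abs_sub_round_le ((k : ℝ) / P)
      rw [h, norm_zero] at h3
      have h4 : |(k : ℝ) / P - round ((k : ℝ) / P)| = 0 :=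
        le_antisymm (by linarith [abs_nonneg ((k : ℝ) / P - round ((k : ℝ) / P))]) (abs_nonneg _)
      have h5 : (k : ℝ) / P = round ((k : ℝ) / P) := by
        have := abs_eq_zero.mp h4
        linarith
      have h6 : |(k : ℝ) / P| < 1 := by
        rw [abs_div, abs_of_pos hPr, div_lt_one hPr]
        have : ((|k| : ℤ) : ℝ) < ((P : ℤ) : ℝ) := by exact_mod_cast hk
        rw [Int.cast_abs] at this
        exact_mod_cast this
      rw [h5] at h6
      have h7 : |round ((k : ℝ) / P)| < 1 := by exact_mod_cast h6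
      have h8 := Int.abs_lt_one_iff.mp h7
      rw [h8, Int.cast_zero, div_eq_zero_iff] at h5
      rcases h5 with h5 | h5
      · exact h0 (by exact_mod_cast h5)
      · exact hPr.ne' h5

/-- characters of `ℤ^12` -/
noncomputable def E (ξ : Fin 12 → ℝ) (x : Fin 12 → ℤ) : ℂ := e (∑ i, ξ i * x i)

lemma norm_E (ξ : Fin 12 → ℝ) (x : Fin 12 → ℤ) : ‖E ξ x‖ = 1 := norm_e _

lemma E_add (ξ : Fin 12 → ℝ) (x y : Fin 12 → ℤ) : E ξ (x + y) = E ξ x * E ξ y := by
  unfold E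
  rw [← e_add, ← Finset.sum_add_distrib]
  congr 1
  apply Finset.sum_congr rfl
  intro i _
  rw [Pi.add_apply]
  push_cast
  ring

lemma E_neg (ξ : Fin 12 → ℝ) (x : Fin 12 → ℤ) : E ξ (-x) = (starRingEnd ℂ) (E ξ x) := by
  unfold E
  rw [conj_e, ← Finset.sum_neg_distrib]
  congr 1
  apply Finset.sum_congr rfl
  intro i _
  rw [Pi.neg_apply]
  push_cast
  ring

lemma E_sub (ξ : Fin 12 → ℝ) (x y : Fin 12 → ℤ) :
    E ξ (x - y) = E ξ x * (starRingEnd ℂ) (E ξ y) := by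
  rw [sub_eq_add_neg, E_add, E_neg]

/-- orthogonality for families -/
lemma orth_sum {ι : Type*} (s : Finset ι) (f : ι → Fin 12 → ℤ) (R : ℕ) (hR : 1 ≤ R)
    (hf : ∀ i ∈ s, ∀ k, |f i k| < R) :
    ∑ t ∈ Fintype.piFinset (fun _ : Fin 12 => range R), ∑ i ∈ s, E (fun k => (t k : ℝ) / R) (f i)
      = (R : ℂ) ^ 12 * ((s.filter (fun i => f i = 0)).card : ℂ) := by
  classical
  rw [Finset.sum_comm]
  have h1 : ∀ i ∈ s, ∑ t ∈ Fintype.piFinset (fun _ : Fin 12 => range R),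
      E (fun k => (t k : ℝ) / R) (f i) = if f i = 0 then (R : ℂ) ^ 12 else 0 := by
    intro i hi
    have h2 : ∀ t : Fin 12 → ℕ, E (fun k => (t k : ℝ) / R) (f i) = ∏ k, e ((t k : ℝ) / R * f i k) := by
      intro t
      unfold E
      rw [e_sum]
    simp_rw [h2]
    rw [← Finset.prod_univ_sum (fun _ : Fin 12 => range R) (fun k a => e ((a : ℝ) / R * f i k))]
    have h3 : ∀ k, ∑ a ∈ range R, e ((a : ℝ) / R * f i k) = if f i k = 0 then (R : ℂ) else 0 :=
      fun k => orth1 R hR _ (hf i hi k)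
    simp_rw [h3]
    by_cases h0 : f i = 0
    · rw [if_pos h0]
      simp [h0]
    · rw [if_neg h0]
      obtain ⟨k, hk⟩ := Function.ne_iff.mp h0
      exact Finset.prod_eq_zero (Finset.mem_univ k) (if_neg hk)
  rw [Finset.sum_congr rfl h1, ← Finset.sum_filter, Finset.sum_const, nsmul_eq_mul]
  ring

/-- The lattice points of the box on a sphere. -/
def W (X N : ℕ) : Finset (Fin 12 → ℕ) :=
  (Fintype.piFinset (fun _ : Fin 12 => range X)).filter (fun w => ∑ i, (w i) ^ 2 = N)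

lemma W_hat (X N : ℕ) (hX : 1 ≤ X) (hN : N < 12 * X ^ 2) (ξ : Fin 12 → ℝ) :
    ((12 * X ^ 2 : ℕ) : ℂ) * ∑ w ∈ W X N, E ξ (fun i => (w i : ℤ))
      = ∑ a ∈ range (12 * X ^ 2), e (-((a : ℝ) / ((12 * X ^ 2 : ℕ) : ℝ) * N)) *
        ∏ i, S X ((a : ℝ) / (12 * (X : ℝ) ^ 2)) (ξ i) := by
  set P : ℕ := 12 * X ^ 2 with hP
  have hP1 : 1 ≤ P := by rw [hP]; nlinarith [Nat.one_le_pow 2 X hX]
  have hPcast : (12 * (X : ℝ) ^ 2) = P := by rw [hP]; push_cast; ring
  rw [hPcast]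
  have h1 : ∀ α : ℝ, ∏ i, S X α (ξ i) = ∑ w ∈ Fintype.piFinset (fun _ : Fin 12 => range X),
      e (α * ((∑ i, (w i) ^ 2 : ℕ) : ℝ)) * E ξ (fun i => (w i : ℤ)) := by
    intro α
    unfold S
    rw [Finset.prod_univ_sum]
    apply Finset.sum_congr rfl
    intro w _
    unfold E
    rw [← e_add, ← e_sum]
    congr 1
    push_cast
    rw [Finset.mul_sum, ← Finset.sum_add_distrib]
  simp_rw [h1, Finset.mul_sum]
  rw [Finset.sum_comm]
  have h2 : ∀ w ∈ Fintype.piFinset (fun _ : Fin 12 => range X),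
      ∑ a ∈ range P, e (-((a : ℝ) / P * N)) * (e ((a : ℝ) / P * ((∑ i, (w i) ^ 2 : ℕ) : ℝ)) *
        E ξ (fun i => (w i : ℤ)))
      = if ∑ i, (w i) ^ 2 = N then (P : ℂ) * E ξ (fun i => (w i : ℤ)) else 0 := by
    intro w hw
    have hw' : ∀ i, w i < X := fun i => Finset.mem_range.mp (Fintype.mem_piFinset.mp hw i)
    have hlt : ∑ i, (w i) ^ 2 < P := by
      have h3 : ∑ i, (w i) ^ 2 ≤ ∑ _i : Fin 12, (X - 1) ^ 2 := by
        apply Finset.sum_le_sum
        intro i _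
        exact Nat.pow_le_pow_left (by have := hw' i; omega) 2
      rw [Finset.sum_const, Finset.card_univ, Fintype.card_fin, smul_eq_mul] at h3
      have h4 : (X - 1) ^ 2 < X ^ 2 := Nat.pow_lt_pow_left (by omega) (by norm_num)
      omega
    have h5 : ∀ a : ℕ, e (-((a : ℝ) / P * N)) * (e ((a : ℝ) / P * ((∑ i, (w i) ^ 2 : ℕ) : ℝ)) *
        E ξ (fun i => (w i : ℤ)))
        = e ((a : ℝ) / P * (((∑ i, (w i) ^ 2 : ℕ) : ℤ) - (N : ℤ) : ℤ)) * E ξ (fun i => (w i : ℤ)) := by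
      intro a
      rw [← mul_assoc, ← e_add]
      congr 2
      push_cast
      ring
    simp_rw [h5]
    rw [← Finset.sum_mul, orth1 P hP1 _ (by rw [abs_lt]; constructor <;> omega)]
    by_cases h6 : ∑ i, (w i) ^ 2 = N
    · rw [if_pos h6, if_pos (by rw [h6]; ring)]
    · rw [if_neg h6, if_neg (by intro h7; apply h6; omega), zero_mul]
  rw [Finset.sum_congr rfl h2, ← Finset.sum_filter]
  rfl

/-- a well-distributed sphere in `ℤ^12` -/
lemma sphere (ε : ℝ) (hε : 0 < ε) : ∃ L : ℕ, 1 ≤ L ∧ ∀ ε₁ : ℝ, 0 < ε₁ → ∃ X N : ℕ, 1 ≤ X ∧ 1 ≤ N ∧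
    0 < (W X N).card ∧ ∀ ξ : Fin 12 → ℝ, (∃ i, ε₁ ≤ ‖e (L * ξ i) - 1‖) →
      ‖∑ w ∈ W X N, E ξ (fun i => (w i : ℤ))‖ ≤ ε * (W X N).card := by
  obtain ⟨L, hL, hcirc⟩ := circle ε hε
  refine ⟨L, hL, ?_⟩
  intro ε₁ hε₁
  obtain ⟨J₀, hJ₀⟩ := hcirc ε₁ hε₁
  have hcirc' := hJ₀ (max J₀ 1) (le_max_left _ _)
  have hJ1 : 1 ≤ max J₀ 1 := le_max_right _ _
  set J := max J₀ 1 with hJ
  set X : ℕ := 1024 * J ^ 4 with hX
  have hX1024 : 1024 ≤ X := by
    have : 1 ≤ J ^ 4 := Nat.one_le_pow _ _ hJ1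
    omega
  have hX1 : 1 ≤ X := by omega
  have hXr : (1024 : ℝ) ≤ X := by exact_mod_cast hX1024
  have hXpos : (0 : ℝ) < X := by linarith
  -- pigeonhole
  have hmaps : ∀ w ∈ Fintype.piFinset (fun _ : Fin 12 => range X), (∑ i, (w i) ^ 2) ∈ range (12 * X ^ 2) := by
    intro w hw
    have hw' : ∀ i, w i < X := fun i => Finset.mem_range.mp (Fintype.mem_piFinset.mp hw i)
    rw [Finset.mem_range]
    have h3 : ∑ i, (w i) ^ 2 ≤ ∑ _i : Fin 12, (X - 1) ^ 2 := by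
      apply Finset.sum_le_sum
      intro i _
      exact Nat.pow_le_pow_left (by have := hw' i; omega) 2
    rw [Finset.sum_const, Finset.card_univ, Fintype.card_fin, smul_eq_mul] at h3
    have h4 : (X - 1) ^ 2 < X ^ 2 := Nat.pow_lt_pow_left (by omega) (by norm_num)
    omega
  obtain ⟨N, hN, hNcard⟩ := Finset.exists_le_card_fiber_of_nsmul_le_card_of_maps_to (b := (X : ℝ) ^ 10 / 12)
    hmaps (by rw [Finset.nonempty_range_iff]; positivity) (by
      rw [Fintype.card_piFinset_const, Finset.card_range, Finset.card_range, nsmul_eq_mul]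
      apply le_of_eq
      push_cast
      ring)
  have hNcard' : (X : ℝ) ^ 10 / 12 ≤ (W X N).card := hNcard
  have hN' : N < 12 * X ^ 2 := Finset.mem_range.mp hN
  have hbig : (1 : ℝ) < (X : ℝ) ^ 10 / 12 := by
    rw [lt_div_iff₀ (by norm_num)]
    calc (1 : ℝ) * 12 < 1024 ^ 10 := by norm_num
      _ ≤ (X : ℝ) ^ 10 := pow_le_pow_left₀ (by norm_num) hXr 10
  have hcard1 : 1 < (W X N).card := by
    have : (1 : ℝ) < (W X N).card := lt_of_lt_of_le hbig hNcard'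
    exact_mod_cast this
  refine ⟨X, N, hX1, ?_, by omega, ?_⟩
  · rcases Nat.eq_zero_or_pos N with h0 | h0
    · exfalso
      subst h0
      obtain ⟨w, hw, w', hw', hne⟩ := Finset.one_lt_card.mp hcard1
      have hz : ∀ v ∈ W X 0, v = 0 := by
        intro v hv
        have h5 : ∑ i, (v i) ^ 2 = 0 := (Finset.mem_filter.mp hv).2
        rw [Finset.sum_eq_zero_iff] at h5
        funext i
        have := h5 i (Finset.mem_univ i)
        exact pow_eq_zero_iff (two_ne_zero) |>.mp this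
      exact hne ((hz w hw).trans (hz w' hw').symm)
    · exact h0
  · intro ξ hξ
    have h1 := hcirc' ξ hξ
    have h2 := W_hat X N hX1 hN' ξ
    have h3 : ((12 * X ^ 2 : ℕ) : ℝ) * ‖∑ w ∈ W X N, E ξ (fun i => (w i : ℤ))‖ ≤ ε * (X : ℝ) ^ 12 := by
      have h4 : ‖((12 * X ^ 2 : ℕ) : ℂ) * ∑ w ∈ W X N, E ξ (fun i => (w i : ℤ))‖
          = ((12 * X ^ 2 : ℕ) : ℝ) * ‖∑ w ∈ W X N, E ξ (fun i => (w i : ℤ))‖ := by
        rw [norm_mul, Complex.norm_natCast]
      rw [← h4, h2]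
      refine (norm_sum_le _ _).trans (le_trans (le_of_eq ?_) h1)
      apply Finset.sum_congr rfl
      intro a _
      rw [norm_mul, norm_e, one_mul, norm_prod]
    have h5 : ‖∑ w ∈ W X N, E ξ (fun i => (w i : ℤ))‖ ≤ ε * ((X : ℝ) ^ 10 / 12) := by
      have h6 : (0 : ℝ) < ((12 * X ^ 2 : ℕ) : ℝ) := by positivity
      have h7 : ε * (X : ℝ) ^ 12 = ((12 * X ^ 2 : ℕ) : ℝ) * (ε * ((X : ℝ) ^ 10 / 12)) := by
        push_cast; ring
      rw [h7] at h3
      exact le_of_mul_le_mul_left h3 h6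
    exact h5.trans (mul_le_mul_of_nonneg_left hNcard' hε.le)

end Pool.Agent.Work.MP_a39d1e_co
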