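import Mathlib
import Pool.Agent.Work.MP_a39d1e_co.Fourier

set_option autoImplicit false

namespace Pool.Agent.Work.MP_a39d1e_co

open Finset

/-- natural box vectors viewed in `ℤ^12` -/
def cst (w : Fin 12 → ℕ) : Fin 12 → ℤ := fun i => (w i : ℤ)

lemma E_smul_close (K : ℕ) (ε₁ : ℝ) (L : ℕ) (ξ : Fin 12 → ℝ)
    (hξ : ∀ i, ‖e (L * ξ i) - 1‖ < ε₁) (v : Fin 12 → ℕ) (hv : ∀ i, v i < K) :
    ‖E ξ (fun i => (L : ℤ) * (v i : ℤ)) - 1‖ ≤ 12 * K * ε₁ := by
  have hε₁ : 0 < ε₁ := lt_of_le_of_lt (norm_nonneg _) (hξ 0)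
  have h1 : ∀ i, ‖e (ξ i * ((L : ℤ) * (v i : ℤ) : ℤ)) - 1‖ ≤ K * ε₁ := by
    intro i
    have h2 : ξ i * ((L : ℤ) * (v i : ℤ) : ℤ) = (v i : ℝ) * (L * ξ i) := by push_cast; ring
    rw [h2]
    have h3 : (v i : ℝ) ≤ K := by exact_mod_cast (hv i).le
    calc ‖e ((v i : ℝ) * (L * ξ i)) - 1‖ ≤ v i * ‖e (L * ξ i) - 1‖ := norm_e_nat_mul_sub_one_le _ _
      _ ≤ K * ε₁ := mul_le_mul h3 (hξ i).le (norm_nonneg _) (by positivity)
  have h4 : ∀ s : Finset (Fin 12), ‖e (∑ i ∈ s, ξ i * ((L : ℤ) * (v i : ℤ) : ℤ)) - 1‖ ≤ s.card * (K * ε₁) := by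
    intro s
    induction s using Finset.induction_on with
    | empty => simp [e_zero]
    | insert a s ha ih =>
      rw [Finset.sum_insert ha, e_add, Finset.card_insert_of_notMem ha]
      have h5 : e (ξ a * ((L : ℤ) * (v a : ℤ) : ℤ)) * e (∑ i ∈ s, ξ i * ((L : ℤ) * (v i : ℤ) : ℤ)) - 1
          = e (ξ a * ((L : ℤ) * (v a : ℤ) : ℤ)) * (e (∑ i ∈ s, ξ i * ((L : ℤ) * (v i : ℤ) : ℤ)) - 1)
            + (e (ξ a * ((L : ℤ) * (v a : ℤ) : ℤ)) - 1) := by ring
      rw [h5]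
      refine (norm_add_le _ _).trans ?_
      rw [norm_mul, norm_e, one_mul]
      push_cast
      have := h1 a
      push_cast at this ih
      linarith
  have h6 := h4 Finset.univ
  rw [Finset.card_univ, Fintype.card_fin] at h6
  unfold E
  refine h6.trans (le_of_eq ?_)
  push_cast
  ring

lemma sum_prod_mul {ι κ : Type*} (s : Finset ι) (t : Finset κ) (g : ι → ℂ) (h : κ → ℂ) :
    ∑ p ∈ s ×ˢ t, g p.1 * h p.2 = (∑ i ∈ s, g i) * ∑ j ∈ t, h j := by
  rw [Finset.sum_mul_sum, Finset.sum_product]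

/-- the pointwise bound used on the Fourier side -/
lemma pointwise_bound (K : ℕ) (hK : 1 ≤ K) (L : ℕ) (ε₁ : ℝ) (hε₁ : ε₁ = 1 / (96 * K * ((K : ℝ) ^ 12) ^ 2))
    (X N : ℕ) (ξ : Fin 12 → ℝ)
    (h : (∃ i, ε₁ ≤ ‖e (L * ξ i) - 1‖) →
      ‖∑ w ∈ W X N, E ξ (fun i => (w i : ℤ))‖ ≤ 1 / (4 * ((K : ℝ) ^ 12) ^ 2) * (W X N).card) :
    |‖∑ v ∈ Fintype.piFinset (fun _ : Fin 12 => range K), E ξ (fun i => (L : ℤ) * (v i : ℤ))‖ ^ 2
        - ((K : ℝ) ^ 12) ^ 2| * ‖∑ w ∈ W X N, E ξ (fun i => (w i : ℤ))‖ ≤ (W X N).card / 4 := by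
  set V := Fintype.piFinset (fun _ : Fin 12 => range K) with hV
  have hKr : (1 : ℝ) ≤ K := by exact_mod_cast hK
  set v₀ : ℝ := (K : ℝ) ^ 12 with hv₀
  have hv₀1 : 1 ≤ v₀ := one_le_pow₀ hKr
  have hcardV : (V.card : ℝ) = v₀ := by
    rw [hV, Fintype.card_piFinset_const, Finset.card_range]
    push_cast
    rfl
  set vv := ∑ v ∈ V, E ξ (fun i => (L : ℤ) * (v i : ℤ)) with hvv
  set ww := ∑ w ∈ W X N, E ξ (fun i => (w i : ℤ)) with hww
  have hvle : ‖vv‖ ≤ v₀ := by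
    rw [hvv, ← hcardV]
    refine (norm_sum_le _ _).trans (le_of_eq ?_)
    simp [norm_E]
  have hwle : ‖ww‖ ≤ (W X N).card := by
    rw [hww]
    refine (norm_sum_le _ _).trans (le_of_eq ?_)
    simp [norm_E]
  have hcw : (0 : ℝ) ≤ (W X N).card := by positivity
  have habs : |‖vv‖ ^ 2 - v₀ ^ 2| = v₀ ^ 2 - ‖vv‖ ^ 2 := by
    rw [abs_of_nonpos]
    · ring
    · have := pow_le_pow_left₀ (norm_nonneg _) hvle 2
      linarith
  rw [habs]
  by_cases hc : ∃ i, ε₁ ≤ ‖e (L * ξ i) - 1‖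
  · have h1 := h hc
    calc (v₀ ^ 2 - ‖vv‖ ^ 2) * ‖ww‖ ≤ v₀ ^ 2 * (1 / (4 * v₀ ^ 2) * (W X N).card) := by
          apply mul_le_mul _ h1 (norm_nonneg _) (by positivity)
          have : 0 ≤ ‖vv‖ ^ 2 := by positivity
          linarith
      _ = ((W X N).card : ℝ) / 4 := by field_simp
  · push Not at hc
    have h1 : ∀ v ∈ V, ‖E ξ (fun i => (L : ℤ) * (v i : ℤ)) - 1‖ ≤ 12 * K * ε₁ := by
      intro v hv
      exact E_smul_close K ε₁ L ξ hc v (fun i => Finset.mem_range.mp (Fintype.mem_piFinset.mp hv i))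
    have h2 : ‖vv - v₀‖ ≤ v₀ * (12 * K * ε₁) := by
      have h3 : vv - (v₀ : ℂ) = ∑ v ∈ V, (E ξ (fun i => (L : ℤ) * (v i : ℤ)) - 1) := by
        rw [Finset.sum_sub_distrib, Finset.sum_const, nsmul_eq_mul, mul_one, ← hvv, ← hcardV]
        simp
      rw [h3]
      refine (norm_sum_le _ _).trans ((Finset.sum_le_sum h1).trans (le_of_eq ?_))
      rw [Finset.sum_const, nsmul_eq_mul, hcardV]
    have h4 : v₀ - v₀ * (12 * K * ε₁) ≤ ‖vv‖ := by
      have h5 : ‖(v₀ : ℂ)‖ ≤ ‖vv‖ + ‖vv - v₀‖ := by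
        calc ‖(v₀ : ℂ)‖ = ‖vv - (vv - v₀)‖ := by ring_nf
          _ ≤ _ := norm_sub_le _ _
      rw [Complex.norm_real, Real.norm_eq_abs, abs_of_nonneg (by positivity)] at h5
      linarith
    have h6 : 12 * K * ε₁ = 1 / (8 * v₀ ^ 2) := by
      rw [hε₁]
      field_simp
      norm_num
    have h7 : v₀ ^ 2 - ‖vv‖ ^ 2 ≤ 1 / 4 := by
      have h8 : v₀ - ‖vv‖ ≤ 1 / (8 * v₀) := by
        have : v₀ * (12 * K * ε₁) = 1 / (8 * v₀) := by rw [h6]; field_simp
        linarith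
      have h9 : v₀ ^ 2 - ‖vv‖ ^ 2 = (v₀ - ‖vv‖) * (v₀ + ‖vv‖) := by ring
      rw [h9]
      calc (v₀ - ‖vv‖) * (v₀ + ‖vv‖) ≤ (1 / (8 * v₀)) * (2 * v₀) := by
            apply mul_le_mul h8 (by linarith) (by positivity) (by positivity)
        _ = 1 / 4 := by field_simp; norm_num
    calc (v₀ ^ 2 - ‖vv‖ ^ 2) * ‖ww‖ ≤ (1 / 4) * (W X N).card :=
          mul_le_mul h7 hwle (norm_nonneg _) (by norm_num)
      _ = ((W X N).card : ℝ) / 4 := by ring

lemma key (K : ℕ) (hK : 1 ≤ K) : ∃ L N M₁ : ℕ, 1 ≤ L ∧ 1 ≤ N ∧ ∀ A : Set (Fin 12 → ℤ),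
    (∀ z : Fin 12 → ℤ, (∀ i, 0 ≤ z i ∧ z i < M₁) →
      ∃ v : Fin 12 → ℤ, (∀ i, 0 ≤ v i ∧ v i < K) ∧ (fun i => z i + L * v i) ∈ A) →
    ∃ x ∈ A, ∃ y ∈ A, ∑ i, (x i - y i) ^ 2 = (N : ℤ) := by
  classical
  have hKr : (1 : ℝ) ≤ K := by exact_mod_cast hK
  obtain ⟨L, hL, hsph⟩ := sphere (1 / (4 * ((K : ℝ) ^ 12) ^ 2)) (by positivity)
  obtain ⟨X, N, hX, hN, hWpos, hdec⟩ := hsph (1 / (96 * K * ((K : ℝ) ^ 12) ^ 2)) (by positivity)
  set u : ℕ := X + L * K with hu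
  have hupos : 0 < u := by omega
  refine ⟨L, N, 12 * u + X, hL, hN, ?_⟩
  intro A hA
  by_contra hcon
  push Not at hcon
  set V := Fintype.piFinset (fun _ : Fin 12 => range K) with hV
  -- the hitting property with natural vectors
  have hA' : ∀ z : Fin 12 → ℕ, ∃ v : Fin 12 → ℕ, (∀ i, z i < 12 * u + X) →
      (v ∈ V ∧ (fun i => (z i : ℤ) + L * (v i : ℤ)) ∈ A) := by
    intro z
    by_cases hz : ∀ i, z i < 12 * u + X
    · obtain ⟨v, hv1, hv2⟩ := hA (fun i => (z i : ℤ))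
        (fun i => ⟨by positivity, by exact_mod_cast hz i⟩)
      refine ⟨fun i => (v i).toNat, fun _ => ⟨?_, ?_⟩⟩
      · rw [hV, Fintype.mem_piFinset]
        intro i
        rw [Finset.mem_range]
        have := hv1 i
        omega
      · have h1 : ∀ i, ((v i).toNat : ℤ) = v i := fun i => Int.toNat_of_nonneg (hv1 i).1
        simp only [h1]
        exact hv2
    · exact ⟨0, fun h => absurd h hz⟩
  choose vf hvf using hA'
  set B : Finset (Fin 12 → ℤ) :=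
    (Fintype.piFinset (fun _ : Fin 12 => Finset.Ico (0 : ℤ) ((13 * u : ℕ) : ℤ))).filter (fun x => x ∈ A) with hB
  have hBmem : ∀ x ∈ B, x ∈ A ∧ ∀ i, 0 ≤ x i ∧ x i < 13 * (u : ℤ) := by
    intro x hx
    obtain ⟨h1, h2⟩ := Finset.mem_filter.mp hx
    refine ⟨h2, fun i => ?_⟩
    have := Finset.mem_Ico.mp (Fintype.mem_piFinset.mp h1 i)
    push_cast at this
    exact this
  set R : ℕ := 14 * u with hR
  have hR1 : 1 ≤ R := by omega
  have hWmem : ∀ w ∈ W X N, (∀ i, w i < X) ∧ ∑ i, (w i) ^ 2 = N := by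
    intro w hw
    obtain ⟨h1, h2⟩ := Finset.mem_filter.mp hw
    exact ⟨fun i => Finset.mem_range.mp (Fintype.mem_piFinset.mp h1 i), h2⟩
  have hVmem : ∀ v ∈ V, ∀ i, v i < K := by
    intro v hv i
    exact Finset.mem_range.mp (Fintype.mem_piFinset.mp hv i)
  have hLK : ∀ v ∈ V, ∀ i, (0 : ℤ) ≤ (L : ℤ) * (v i : ℤ) ∧ (L : ℤ) * (v i : ℤ) < L * K := by
    intro v hv i
    have h1 := hVmem v hv i
    have h2 : (v i : ℤ) < K := by exact_mod_cast h1
    have h3 : (0 : ℤ) < L := by exact_mod_cast hL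
    exact ⟨by positivity, by nlinarith⟩
  have huz : (u : ℤ) = X + L * K := by rw [hu]; push_cast; ring
  have hLK0 : (0 : ℤ) ≤ (L : ℤ) * K := by positivity
  set Bx := Fintype.piFinset (fun _ : Fin 12 => range R) with hBx
  let ξ : (Fin 12 → ℕ) → (Fin 12 → ℝ) := fun t k => (t k : ℝ) / R
  let a : (Fin 12 → ℕ) → ℂ := fun t => ∑ x ∈ B, E (ξ t) x
  let vv : (Fin 12 → ℕ) → ℂ := fun t => ∑ v ∈ V, E (ξ t) (fun i => (L : ℤ) * (v i : ℤ))
  let ww : (Fin 12 → ℕ) → ℂ := fun t => ∑ w ∈ W X N, E (ξ t) (fun i => (w i : ℤ))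
  -- first identity
  have htot1 : ∑ t ∈ Bx, (a t * ((starRingEnd ℂ) (a t) * ww t)) = 0 := by
    have h1 := orth_sum (B ×ˢ (B ×ˢ W X N)) (fun p => p.1 - p.2.1 + (fun i => (p.2.2 i : ℤ))) R hR1
      (by
        rintro ⟨x, x', w⟩ hp k
        rw [Finset.mem_product, Finset.mem_product] at hp
        obtain ⟨hx, hx', hw⟩ := hp
        have e1 := (hBmem x hx).2 k
        have e2 := (hBmem x' hx').2 k
        have e3 : (w k : ℤ) < X := by exact_mod_cast (hWmem w hw).1 k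
        simp only [Pi.add_apply, Pi.sub_apply]
        rw [abs_lt, hR]
        push_cast
        constructor <;> [linarith; linarith])
    have h2 : ((B ×ˢ (B ×ˢ W X N)).filter
        (fun p => p.1 - p.2.1 + (fun i => (p.2.2 i : ℤ)) = (0 : Fin 12 → ℤ))) = ∅ := by
      rw [Finset.filter_eq_empty_iff]
      rintro ⟨x, x', w⟩ hp h0
      rw [Finset.mem_product, Finset.mem_product] at hp
      obtain ⟨hx, hx', hw⟩ := hp
      apply hcon x (hBmem x hx).1 x' (hBmem x' hx').1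
      have h3 : ∀ i, x i - x' i = -(w i : ℤ) := by
        intro i
        have := congrFun h0 i
        simp only [Pi.add_apply, Pi.sub_apply, Pi.zero_apply] at this
        linarith
      simp_rw [h3, neg_sq]
      exact_mod_cast (hWmem w hw).2
    rw [h2, Finset.card_empty, Nat.cast_zero, mul_zero] at h1
    rw [← h1]
    apply Finset.sum_congr rfl
    intro t _
    have h4 : ∀ p : (Fin 12 → ℤ) × (Fin 12 → ℤ) × (Fin 12 → ℕ),
        E (ξ t) (p.1 - p.2.1 + (fun i => (p.2.2 i : ℤ)))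
        = E (ξ t) p.1 * ((starRingEnd ℂ) (E (ξ t) p.2.1) * E (ξ t) (fun i => (p.2.2 i : ℤ))) := by
      intro p
      rw [E_add, E_sub, mul_assoc]
    simp_rw [show (fun k => (t k : ℝ) / R) = ξ t from rfl, h4]
    rw [sum_prod_mul B (B ×ˢ W X N) (fun x => E (ξ t) x)
      (fun p => (starRingEnd ℂ) (E (ξ t) p.1) * E (ξ t) (fun i => (p.2 i : ℤ))),
      sum_prod_mul B (W X N) (fun x => (starRingEnd ℂ) (E (ξ t) x)) (fun w => E (ξ t) (fun i => (w i : ℤ))),
      ← map_sum]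
  -- second identity
  obtain ⟨c2, htot2, hc2⟩ : ∃ c2 : ℕ, ∑ t ∈ Bx, (a t * ((starRingEnd ℂ) (a t) *
      ((starRingEnd ℂ) (vv t) * (vv t * ww t)))) = (R : ℂ) ^ 12 * (c2 : ℂ) ∧
      (12 * u) ^ 12 * (W X N).card ≤ c2 := by
    have h1 := orth_sum (B ×ˢ (B ×ˢ (V ×ˢ (V ×ˢ W X N))))
      (fun p => (p.1 - p.2.1) + ((fun i => (L : ℤ) * (p.2.2.2.1 i : ℤ)) - (fun i => (L : ℤ) * (p.2.2.1 i : ℤ)))
        + (fun i => (p.2.2.2.2 i : ℤ))) R hR1
      (by
        rintro ⟨x, x', v, v', w⟩ hp k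
        rw [Finset.mem_product, Finset.mem_product, Finset.mem_product, Finset.mem_product] at hp
        obtain ⟨hx, hx', hv, hv', hw⟩ := hp
        have e1 := (hBmem x hx).2 k
        have e2 := (hBmem x' hx').2 k
        have e3 : (w k : ℤ) < X := by exact_mod_cast (hWmem w hw).1 k
        have e4 := hLK v hv k
        have e5 := hLK v' hv' k
        have e6 : (0 : ℤ) ≤ (w k : ℤ) := by positivity
        simp only [Pi.add_apply, Pi.sub_apply]
        rw [abs_lt, hR]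
        push_cast
        constructor <;> [linarith; linarith])
    refine ⟨_, Eq.trans ?_ h1, ?_⟩
    · apply Finset.sum_congr rfl
      intro t _
      have h4 : ∀ p : (Fin 12 → ℤ) × (Fin 12 → ℤ) × (Fin 12 → ℕ) × (Fin 12 → ℕ) × (Fin 12 → ℕ),
          E (ξ t) ((p.1 - p.2.1) + ((fun i => (L : ℤ) * (p.2.2.2.1 i : ℤ)) - (fun i => (L : ℤ) * (p.2.2.1 i : ℤ)))
            + (fun i => (p.2.2.2.2 i : ℤ)))
          = E (ξ t) p.1 * ((starRingEnd ℂ) (E (ξ t) p.2.1) * ((starRingEnd ℂ) (E (ξ t) (fun i => (L : ℤ) * (p.2.2.1 i : ℤ)))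
            * (E (ξ t) (fun i => (L : ℤ) * (p.2.2.2.1 i : ℤ)) * E (ξ t) (fun i => (p.2.2.2.2 i : ℤ))))) := by
        intro p
        rw [E_add, E_add, E_sub, E_sub]
        ring
      simp_rw [show (fun k => (t k : ℝ) / R) = ξ t from rfl, h4]
      rw [sum_prod_mul B (B ×ˢ (V ×ˢ (V ×ˢ W X N))) (fun x => E (ξ t) x)
        (fun p => (starRingEnd ℂ) (E (ξ t) p.1) * ((starRingEnd ℂ) (E (ξ t) (fun i => (L : ℤ) * (p.2.1 i : ℤ)))
            * (E (ξ t) (fun i => (L : ℤ) * (p.2.2.1 i : ℤ)) * E (ξ t) (fun i => (p.2.2.2 i : ℤ))))),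
        sum_prod_mul B (V ×ˢ (V ×ˢ W X N)) (fun x => (starRingEnd ℂ) (E (ξ t) x))
        (fun p => ((starRingEnd ℂ) (E (ξ t) (fun i => (L : ℤ) * (p.1 i : ℤ)))
            * (E (ξ t) (fun i => (L : ℤ) * (p.2.1 i : ℤ)) * E (ξ t) (fun i => (p.2.2 i : ℤ))))),
        sum_prod_mul V (V ×ˢ W X N) (fun v => (starRingEnd ℂ) (E (ξ t) (fun i => (L : ℤ) * (v i : ℤ))))
        (fun p => (E (ξ t) (fun i => (L : ℤ) * (p.1 i : ℤ)) * E (ξ t) (fun i => (p.2 i : ℤ)))),
        sum_prod_mul V (W X N) (fun v => E (ξ t) (fun i => (L : ℤ) * (v i : ℤ)))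
        (fun w => E (ξ t) (fun i => (w i : ℤ))),
        ← map_sum, ← map_sum]
    · have h5 : (12 * u) ^ 12 * (W X N).card
          = ((Fintype.piFinset (fun _ : Fin 12 => range (12 * u))) ×ˢ W X N).card := by
        rw [Finset.card_product, Fintype.card_piFinset_const, Finset.card_range]
      rw [h5]
      apply Finset.card_le_card_of_injOn (fun p =>
        ((fun i => (p.1 i : ℤ) + L * (vf p.1 i : ℤ)),
          (fun i => ((p.1 i + p.2 i : ℕ) : ℤ) + L * (vf (fun k => p.1 k + p.2 k) i : ℤ)),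
          vf p.1, vf (fun k => p.1 k + p.2 k), p.2))
      · rintro ⟨z, w⟩ hp
        simp only [Finset.mem_coe] at hp ⊢
        rw [Finset.mem_product] at hp
        obtain ⟨hz, hw⟩ := hp
        have hz' : ∀ i, z i < 12 * u := fun i => Finset.mem_range.mp (Fintype.mem_piFinset.mp hz i)
        have hw' := (hWmem w hw).1
        obtain ⟨g1, g2⟩ := hvf z (fun i => lt_of_lt_of_le (hz' i) (Nat.le_add_right _ _))
        obtain ⟨g3, g4⟩ := hvf (fun k => z k + w k) (fun i => by have := hz' i; have := hw' i; omega)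
        rw [Finset.mem_filter, Finset.mem_product, Finset.mem_product, Finset.mem_product, Finset.mem_product]
        refine ⟨⟨?_, ?_, g1, g3, hw⟩, ?_⟩
        · rw [hB, Finset.mem_filter, Fintype.mem_piFinset]
          refine ⟨fun i => ?_, g2⟩
          have e1 := hLK (vf z) g1 i
          have e2 : (z i : ℤ) < 12 * (u : ℤ) := by exact_mod_cast hz' i
          rw [Finset.mem_Ico]
          push_cast
          constructor
          · have : (0 : ℤ) ≤ (z i : ℤ) := by positivity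
            linarith
          · linarith
        · rw [hB, Finset.mem_filter, Fintype.mem_piFinset]
          refine ⟨fun i => ?_, by exact_mod_cast g4⟩
          have e1 := hLK (vf (fun k => z k + w k)) g3 i
          have e2 : (z i : ℤ) < 12 * (u : ℤ) := by exact_mod_cast hz' i
          have e3 : (w i : ℤ) < X := by exact_mod_cast hw' i
          have e4 : (0 : ℤ) ≤ (z i : ℤ) := by positivity
          have e5 : (0 : ℤ) ≤ (w i : ℤ) := by positivity
          rw [Finset.mem_Ico]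
          push_cast
          constructor
          · linarith
          · linarith
        · funext i
          simp only [Pi.add_apply, Pi.sub_apply, Pi.zero_apply]
          push_cast
          ring
      · rintro ⟨z, w⟩ hp ⟨z', w'⟩ hp' heq
        simp only [Prod.mk.injEq] at heq
        obtain ⟨q1, q2, q3, q4, q5⟩ := heq
        have h6 : z = z' := by
          funext i
          have := congrFun q1 i
          rw [q3] at this
          have h7 : (z i : ℤ) = z' i := by linarith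
          exact_mod_cast h7
        rw [h6, q5]
  -- third identity
  have htot3 : ∑ t ∈ Bx, ‖a t‖ ^ 2 ≤ (R : ℝ) ^ 12 * B.card := by
    have h1 := orth_sum (B ×ˢ B) (fun p => p.1 - p.2) R hR1
      (by
        rintro ⟨x, x'⟩ hp k
        rw [Finset.mem_product] at hp
        obtain ⟨hx, hx'⟩ := hp
        have e1 := (hBmem x hx).2 k
        have e2 := (hBmem x' hx').2 k
        simp only [Pi.sub_apply]
        rw [abs_lt, hR]
        push_cast
        constructor <;> [linarith; linarith])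
    have h2 : ∑ t ∈ Bx, ∑ p ∈ B ×ˢ B, E (fun k => (t k : ℝ) / R) (p.1 - p.2)
        = ((∑ t ∈ Bx, ‖a t‖ ^ 2 : ℝ) : ℂ) := by
      rw [Complex.ofReal_sum]
      apply Finset.sum_congr rfl
      intro t _
      simp_rw [show (fun k => (t k : ℝ) / R) = ξ t from rfl, E_sub]
      rw [sum_prod_mul B B (fun x => E (ξ t) x) (fun x => (starRingEnd ℂ) (E (ξ t) x)), ← map_sum,
        Complex.mul_conj, Complex.normSq_eq_norm_sq]
    rw [h2] at h1
    have h3 : (∑ t ∈ Bx, ‖a t‖ ^ 2 : ℝ) = (R : ℝ) ^ 12 * ((B ×ˢ B).filter (fun p => p.1 - p.2 = 0)).card := by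
      exact_mod_cast h1
    rw [h3]
    apply mul_le_mul_of_nonneg_left _ (by positivity)
    have h4 : ((B ×ˢ B).filter (fun p => p.1 - p.2 = 0)).card ≤ B.card := by
      apply Finset.card_le_card_of_injOn (fun p => p.1)
      · rintro ⟨x, x'⟩ hp
        simp only [Finset.mem_coe] at hp ⊢
        exact (Finset.mem_product.mp (Finset.mem_filter.mp hp).1).1
      · rintro ⟨x, x'⟩ hp ⟨y, y'⟩ hp' heq
        simp only [Finset.mem_coe, Finset.mem_filter] at hp hp'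
        have h5 : x = x' := sub_eq_zero.mp hp.2
        have h6 : y = y' := sub_eq_zero.mp hp'.2
        simp only at heq
        rw [← h5, ← h6, heq]
    exact_mod_cast h4
  -- combination
  set v₀ : ℝ := (K : ℝ) ^ 12 with hv₀
  have hterm : ∀ t ∈ Bx, ‖a t * ((starRingEnd ℂ) (a t) * ((starRingEnd ℂ) (vv t) * (vv t * ww t)))
      - ((v₀ ^ 2 : ℝ) : ℂ) * (a t * ((starRingEnd ℂ) (a t) * ww t))‖ ≤ ‖a t‖ ^ 2 * ((W X N).card / 4) := by
    intro t _
    have h1 : a t * ((starRingEnd ℂ) (a t) * ((starRingEnd ℂ) (vv t) * (vv t * ww t)))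
      - ((v₀ ^ 2 : ℝ) : ℂ) * (a t * ((starRingEnd ℂ) (a t) * ww t))
      = (a t * (starRingEnd ℂ) (a t)) * ((vv t * (starRingEnd ℂ) (vv t) - ((v₀ ^ 2 : ℝ) : ℂ)) * ww t) := by ring
    rw [h1, Complex.mul_conj, Complex.mul_conj, ← Complex.ofReal_sub, norm_mul, norm_mul,
      Complex.norm_real, Complex.norm_real, Complex.normSq_eq_norm_sq, Complex.normSq_eq_norm_sq,
      Real.norm_eq_abs, Real.norm_eq_abs, abs_of_nonneg (by positivity : 0 ≤ ‖a t‖ ^ 2)]
    apply mul_le_mul_of_nonneg_left _ (by positivity)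
    exact pointwise_bound K hK L _ rfl X N (ξ t) (hdec (ξ t))
  have hfin : (R : ℝ) ^ 12 * c2 ≤ ((W X N).card / 4) * ((R : ℝ) ^ 12 * B.card) := by
    have h1 : ‖(R : ℂ) ^ 12 * (c2 : ℂ)‖ = (R : ℝ) ^ 12 * c2 := by
      rw [norm_mul, norm_pow, Complex.norm_natCast, Complex.norm_natCast]
    have h2 : (R : ℂ) ^ 12 * (c2 : ℂ) = ∑ t ∈ Bx,
        (a t * ((starRingEnd ℂ) (a t) * ((starRingEnd ℂ) (vv t) * (vv t * ww t)))
        - ((v₀ ^ 2 : ℝ) : ℂ) * (a t * ((starRingEnd ℂ) (a t) * ww t))) := by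
      rw [Finset.sum_sub_distrib, ← Finset.mul_sum, htot1, htot2]
      ring
    rw [← h1, h2]
    calc _ ≤ ∑ t ∈ Bx, ‖a t‖ ^ 2 * (((W X N).card : ℝ) / 4) :=
          (norm_sum_le _ _).trans (Finset.sum_le_sum hterm)
      _ = (((W X N).card : ℝ) / 4) * ∑ t ∈ Bx, ‖a t‖ ^ 2 := by rw [← Finset.sum_mul, mul_comm]
      _ ≤ _ := mul_le_mul_of_nonneg_left htot3 (by positivity)
  have hBcard : (B.card : ℝ) ≤ (13 * u : ℝ) ^ 12 := by
    have h1 : B.card ≤ (13 * u) ^ 12 := by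
      refine (Finset.card_filter_le _ _).trans (le_of_eq ?_)
      rw [Fintype.card_piFinset_const, Int.card_Ico, sub_zero, Int.toNat_natCast]
    exact_mod_cast h1
  have hc2r : (12 * u : ℝ) ^ 12 * (W X N).card ≤ c2 := by exact_mod_cast hc2
  have hRpos : (0 : ℝ) < (R : ℝ) ^ 12 := by positivity
  have hWr : (0 : ℝ) < (W X N).card := by exact_mod_cast hWpos
  have hur : (0 : ℝ) < u := by exact_mod_cast hupos
  have h9 : (c2 : ℝ) ≤ ((W X N).card / 4) * (13 * u : ℝ) ^ 12 := by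
    have h10 : (R : ℝ) ^ 12 * c2 ≤ (R : ℝ) ^ 12 * (((W X N).card / 4) * (13 * u : ℝ) ^ 12) := by
      calc _ ≤ (((W X N).card : ℝ) / 4) * ((R : ℝ) ^ 12 * B.card) := hfin
        _ = (R : ℝ) ^ 12 * ((((W X N).card : ℝ) / 4) * B.card) := by ring
        _ ≤ _ := by
          apply mul_le_mul_of_nonneg_left _ hRpos.le
          exact mul_le_mul_of_nonneg_left hBcard (by positivity)
    exact le_of_mul_le_mul_left h10 hRpos
  have h11 : (12 * u : ℝ) ^ 12 * (W X N).card ≤ ((W X N).card / 4) * (13 * u : ℝ) ^ 12 := hc2r.trans h9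
  have h12 : (12 * u : ℝ) ^ 12 ≤ (1 / 4) * (13 * u : ℝ) ^ 12 := by
    have h13 : (12 * u : ℝ) ^ 12 * (W X N).card ≤ ((1 / 4) * (13 * u : ℝ) ^ 12) * (W X N).card := by
      calc _ ≤ _ := h11
        _ = _ := by ring
    exact le_of_mul_le_mul_right h13 hWr
  rw [mul_pow, mul_pow] at h12
  have hu12 : (0 : ℝ) < (u : ℝ) ^ 12 := by positivity
  nlinarith

end Pool.Agent.Work.MP_a39d1e_co
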