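import Mathlib
import Pool.Agent.Work.MP_a39d1e_co.Key

set_option autoImplicit false

namespace Pool.Agent.Work.MP_a39d1e_co

open Finset

/-- For every number `m` of colours there are `m` distances for which a finite box of `ℤ^12`
cannot be covered. -/
theorem uncolorable (m : ℕ) : ∃ (N : Fin m → ℕ) (K : ℕ), (∀ j, 1 ≤ N j) ∧ 1 ≤ K ∧
    ∀ A : Fin m → Set (Fin 12 → ℤ), (∀ x : Fin 12 → ℤ, (∀ i, 0 ≤ x i ∧ x i < K) → ∃ j, x ∈ A j) →
      ∃ j, ∃ x ∈ A j, ∃ y ∈ A j, ∑ i, (x i - y i) ^ 2 = (N j : ℤ) := by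
  induction m with
  | zero =>
    refine ⟨Fin.elim0, 1, fun j => j.elim0, le_refl _, ?_⟩
    intro A hA
    obtain ⟨j, _⟩ := hA 0 (fun i => ⟨le_refl _, by norm_num⟩)
    exact j.elim0
  | succ m ih =>
    obtain ⟨N, K, hN, hK, hcol⟩ := ih
    obtain ⟨L, N₀, M₁, hL, hN₀, hkey⟩ := key K hK
    refine ⟨Fin.cons N₀ (fun j => L ^ 2 * N j), M₁ + L * K, ?_, ?_, ?_⟩
    · intro j
      refine Fin.cases ?_ (fun j => ?_) j
      · simpa using hN₀
      · rw [Fin.cons_succ]
        exact Nat.mul_pos (by positivity) (hN j)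
    · have : 1 ≤ L * K := Nat.mul_pos hL hK
      omega
    · intro A hA
      by_cases hit : ∀ z : Fin 12 → ℤ, (∀ i, 0 ≤ z i ∧ z i < M₁) →
          ∃ v : Fin 12 → ℤ, (∀ i, 0 ≤ v i ∧ v i < K) ∧ (fun i => z i + L * v i) ∈ A 0
      · obtain ⟨x, hx, y, hy, hxy⟩ := hkey (A 0) hit
        exact ⟨0, x, hx, y, hy, by rw [Fin.cons_zero]; exact hxy⟩
      · push Not at hit
        obtain ⟨z, hz, hzv⟩ := hit
        obtain ⟨j, x, hx, y, hy, hxy⟩ := hcol (fun j => {v | (fun i => z i + L * v i) ∈ A j.succ}) (by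
          intro v hv
          have hLz : (0 : ℤ) < L := by exact_mod_cast hL
          obtain ⟨j, hj⟩ := hA (fun i => z i + L * v i) (fun i => by
            have h1 := hz i
            have h2 := hv i
            push_cast
            constructor
            · have : 0 ≤ (L : ℤ) * v i := mul_nonneg hLz.le h2.1
              linarith
            · have : (L : ℤ) * v i < L * K := by
                exact mul_lt_mul_of_pos_left h2.2 hLz
              linarith)
          rcases Fin.eq_zero_or_eq_succ j with h0 | ⟨j', hj'⟩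
          · exact absurd (h0 ▸ hj) (hzv v hv)
          · exact ⟨j', by rw [← hj']; exact hj⟩)
        refine ⟨j.succ, _, hx, _, hy, ?_⟩
        rw [Fin.cons_succ]
        push_cast
        rw [← hxy, Finset.mul_sum]
        apply Finset.sum_congr rfl
        intro i _
        ring

/-- There is no finite `m` which works for `ℝ^12` and one distance per colour. -/
theorem upper_chromatic_infinite (m : ℕ) : ∃ D : Fin 1 → Fin m → ℝ, (∀ i j, 0 < D i j) ∧
    ¬ ∃ T : EuclideanSpace ℝ (Fin 12) → Fin m,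
      ∀ (i : Fin 1) (j : Fin m) (x y : EuclideanSpace ℝ (Fin 12)),
        dist x y = D i j → ¬ (T x = j ∧ T y = j) := by
  obtain ⟨N, K, hN, hK, hcol⟩ := uncolorable m
  refine ⟨fun _ j => Real.sqrt (N j), ?_, ?_⟩
  · intro _ j
    apply Real.sqrt_pos.mpr
    exact_mod_cast hN j
  · rintro ⟨T, hT⟩
    let ι : (Fin 12 → ℤ) → EuclideanSpace ℝ (Fin 12) := fun x => WithLp.toLp 2 (fun i => (x i : ℝ))
    obtain ⟨j, x, hx, y, hy, hxy⟩ := hcol (fun j => {x | T (ι x) = j}) (fun x _ => ⟨T (ι x), rfl⟩)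
    apply hT 0 j (ι x) (ι y) _ ⟨hx, hy⟩
    rw [EuclideanSpace.dist_eq]
    congr 1
    have h1 : (∑ i, ((x i : ℝ) - y i) ^ 2) = (N j : ℝ) := by exact_mod_cast hxy
    rw [← h1]
    apply Finset.sum_congr rfl
    intro i _
    rw [Real.dist_eq, sq_abs]

end Pool.Agent.Work.MP_a39d1e_co
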